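import Pool.Agent.BisRu.Targets
import Pool.Agent.BisRt.P_PTX

/-!
# Polynomial time: the whole algorithm
-/

set_option autoImplicit false

namespace Pool.Agent.BisRu

open Finset Pool.Agent.PT Pool.Agent.BisTh Pool.Agent.BisRg Pool.Agent.BisRt

namespace PTX_

theorem V_pt (h_PTA : U_PTA) [hC : Fact Core] :
    PolyF (fun x : In₂ => algV x.1 x.2.1 x.2.2.2) := by
  have h1 := h_PTA hC
  have h2 : PolyF (fun x : In₂ => List.range (true :: un x.2.2.2).length) := by
    refine PolyF.range_length ?_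
    fun_prop
  have h4 : PolyF (fun p : In₂ × ℕ => algVD p.2 p.1.1 p.1.2.1 p.1.2.2.2) :=
    h1.comp (g := fun p : In₂ × ℕ => (p.2, p.1.1, p.1.2.1, p.1.2.2.2)) (by fun_prop)
  unfold algV
  exact Pool.Agent.BisRt.PTX_.maxL_pt
      (PolyF.map (f := fun (x : In₂) D => algVD D x.1 x.2.1 x.2.2.2) h4 h2)

attribute [local irreducible] algV algW pw

theorem W_pt [hC : Fact Core] (F : Un → Un) (hF : PolyF (fun x : In₂ => F x.1)) :
    PolyF (fun x : In₂ => algW (F x.1) x.2.1 x.2.2.1 x.2.2.2) := by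
  have h7 : PolyF (fun x : In₂ => ((F x.1, x.2.1, x.2.2.1, x.2.2.2) : In₂)) :=
    hF.pair (by fun_prop)
  exact (tWPT hC).comp h7


theorem gen_pt [hC : Fact Core] (f g : In₂ → ℕ) (hf : PolyF f) (hg : PolyF g) :
    PolyF (fun x : In₂ => maxL [cond (decide (x.2.2.1.length = x.2.2.2.length)) (f x) 0, g x]) := by
  refine Pool.Agent.BisRt.PTX_.maxL_pt ?_
  have h0 : PolyF (fun x : In₂ => cond (decide (x.2.2.1.length = x.2.2.2.length)) (f x) 0) := by
    refine PolyF.cond ?_ hf (PolyF.const _)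
    fun_prop
  exact PolyF.cons h0 (PolyF.cons hg (PolyF.const _))

end PTX_

theorem u_PTX (h_PTA : U_PTA) : U_PTX := by
  intro hC
  have h6 : PolyF (fun x : In₂ => pw 135 x.1) := pw_pt 135 (PolyF.fst PolyF.id)
  exact PTX_.gen_pt (fun x : In₂ => algV x.1 x.2.1 x.2.2.2)
    (fun x : In₂ => algW (pw 135 x.1) x.2.1 x.2.2.1 x.2.2.2) (PTX_.V_pt h_PTA)
    (PTX_.W_pt (hC := hC) (pw 135) h6)

end Pool.Agent.BisRu
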