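import Pool.Agent.BisRt.Targets

/-!
# Nearly regular bipartite graphs in time `2 ^ O((s + 1) n / d)`: definitions

MP_29585b_lc. All degrees are between `d` and `d + s`; both sides have `n` vertices. The algorithm
is the one of `Pool.Agent.BisRt` with other constants, together with an exact algorithm for the
trivial ranges of the parameters.
-/

set_option autoImplicit false

namespace Pool.Agent.BisRu

open Finset Pool.Agent.BisTh Pool.Agent.BisRg Pool.Agent.BisRt

/-- The algorithm with time bound `w ≥ 2 ^ k`, `k ≥ (s + 1) n / d`. -/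
def Statement8 : Prop :=
  ∃ A : Bip × ℕ × ℕ → ℕ, Nonempty (Turing.TM2ComputableInPolyTime encInput₂ encNat A) ∧
    ∀ (G : Bip) (t w : ℕ), A (G, t, w) ≤ G.count ∧
      ∀ d s k : ℕ, 1 ≤ d → NearRegular G d s → (s + 1) * G.a ≤ d * k → 2 ^ k ≤ w →
        t * (G.count - A (G, t, w)) ≤ G.count

/-- Polynomial time if `(s + 1) n ≤ q d log n`. -/
def Statement9 : Prop :=
  ∀ q : ℕ, ∃ A : Bip × ℕ → ℕ, Nonempty (Turing.TM2ComputableInPolyTime encInput encNat A) ∧
    ∀ (G : Bip) (t d s : ℕ), NearRegular G d s → (s + 1) * G.a ≤ q * (d * Nat.log 2 G.a) →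
      A (G, t) ≤ G.count ∧ t * (G.count - A (G, t)) ≤ G.count

/-- All degrees are between `d` and `d + s`. -/
def NReg (adj : ℕ → ℕ → Bool) (n d s : ℕ) : Prop :=
  (∀ i < n, d ≤ ((range n).filter fun j => adj i j = true).card ∧
    ((range n).filter fun j => adj i j = true).card ≤ d + s) ∧
  ∀ j < n, d ≤ ((range n).filter fun i => adj i j = true).card ∧
    ((range n).filter fun i => adj i j = true).card ≤ d + s

/-- `(5 / 2) exp (- x / 10)`. -/
noncomputable def Fu (x : ℝ) : ℝ := Ff x / 2

/-- The sum of the functions `Fu` over the vertices of one side. -/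
noncomputable def Su (adj : ℕ → ℕ → Bool) (n d : ℕ) (X Y : Finset ℕ) : ℝ :=
  ∑ i ∈ hi adj d X Y, Fu ((inc adj n X Y i : ℝ) / d)

/-- The potential. -/
noncomputable def Pu (adj : ℕ → ℕ → Bool) (n d : ℕ) (θ : ℝ) (X Y : Finset ℕ) : ℝ :=
  -(θ * ((Ed adj n X Y : ℝ) / d)) + 35 * (((X.card : ℝ) + Y.card) / d) +
    (Su adj n d X Y + Su (tr adj) n d Y X) / d

/-- The weight. -/
noncomputable def Wu (adj : ℕ → ℕ → Bool) (n d : ℕ) (θ : ℝ) (X Y : Finset ℕ) : ℝ :=
  Real.exp (Pu adj n d θ X Y)

/-- Bound for the number of states. -/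
def capU (W T : Un) : Un := pw 14000 (W ++ W ++ T ++ T ++ [true, true, true])

/-- `7000 (bits w + bits t + 1)`. -/
def limU (W T : Un) : Un := rep 7000 (W.length.bits ++ T.length.bits ++ [true])

/-- The limit `D * limU`. -/
def limDU (D : ℕ) (W T : Un) (V : List ℕ) : ℕ :=
  ((V.filter fun i => decide (i < D)).flatMap fun _ => limU W T).length

/-- The value for a fixed `D`; `V = range n`. -/
def algVD (D : ℕ) (W T : Un) (R : List (List Bool)) : ℕ :=
  tot (((rounds D (limDU D W T (List.range R.length)) (capU W T) R (List.range R.length)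
    [(List.range R.length, List.range R.length)]).map (toSt R)).flatMap
      (leafExp (bud (capU W T) (T ++ T))))

/-- The maximum over all `D ≤ R.length` (only rows of length `R.length` are used). -/
def algV (W T : Un) (R : List (List Bool)) : ℕ :=
  maxL ((List.range (true :: un R).length).map fun D => algVD D W T R)

/-- The whole algorithm. -/
def algY (W T B : Un) (R : List (List Bool)) : ℕ :=
  maxL [cond (decide (B.length = R.length)) (algV W T R) 0, algW (pw 135 W) T B R]

end Pool.Agent.BisRu
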