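import Pool.Agent.BisRu.Targets
import Pool.Agent.BisRt.P_GRA

set_option autoImplicit false

/-!
# BRU-AYL: the whole algorithm on graphs
-/

namespace Pool.Agent.BisRu

open Finset Pool.Agent.PT Pool.Agent.BisTh Pool.Agent.BisRg Pool.Agent.BisRt

namespace AYL_

theorem maxL_two (x y : ℕ) : maxL [x, y] = max x y := by
  simp [maxL]

/-- A larger lower bound has a smaller error. -/
theorem err_mono {t c x y b : ℕ} (hxy : x ≤ y) (h : t * (c - x) ≤ b) : t * (c - y) ≤ b :=
  (Nat.mul_le_mul_left t (Nat.sub_le_sub_left hxy c)).trans h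

end AYL_

open AYL_ in
theorem u_AYL (h_ALT : U_ALT) (h_GRA : U_GRA) (h_BRU : U_BRU) : U_AYL := by
  intro G W T
  have hB : (List.replicate G.b true).length = G.b := List.length_replicate
  have hR : (rowsOf G).length = G.a := GRA_.length_rowsOf G
  have hcnt : cnt (rowsOf G) (List.range (List.replicate G.b true).length) = G.count := by
    rw [hB, ← count_eq]
  -- the second algorithm
  have hle2 : algW (pw 135 W) T (List.replicate G.b true) (rowsOf G) ≤
      algY W T (List.replicate G.b true) (rowsOf G) := by
    unfold algY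
    rw [maxL_two]
    exact le_max_right _ _
  constructor
  · unfold algY
    rw [maxL_two]
    refine max_le ?_ ?_
    · rw [hB, hR]
      by_cases hab : G.b = G.a
      · have h1 := h_ALT.1 W T (rowsOf G)
        rw [hR, (p_GRA G hab.symm).2.1] at h1
        simpa [hab] using h1
      · simp [hab]
    · have h1 := tALW.1 (pw 135 W) T (List.replicate G.b true) (rowsOf G)
      rwa [hcnt] at h1
  · intro d s k hd hN hsk hw
    have hab : G.a = G.b := hN.1
    have hbr : 2 ^ G.a ≤ W.length ^ 135 →
        T.length * (G.count - algY W T (List.replicate G.b true) (rowsOf G)) ≤ G.count := by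
      intro h
      have h1 := h_BRU (pw 135 W) T (List.replicate G.b true) (rowsOf G)
        (by rw [hB, hR, hab]) (by rw [pw_length, hR]; exact h)
      rw [hcnt] at h1
      exact err_mono hle2 h1
    have hpow : ∀ m : ℕ, m ≤ 135 * k → 2 ^ m ≤ W.length ^ 135 := by
      intro m hm
      calc 2 ^ m ≤ 2 ^ (135 * k) := Nat.pow_le_pow_right (by norm_num) hm
        _ = (2 ^ k) ^ 135 := by rw [← pow_mul, mul_comm]
        _ ≤ W.length ^ 135 := Nat.pow_le_pow_left hw _
    by_cases h135 : d < 135
    · refine hbr (hpow _ ?_)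
      have h1 : G.a ≤ (s + 1) * G.a := Nat.le_mul_of_pos_left _ (by omega)
      have h2 : d * k ≤ 135 * k := Nat.mul_le_mul_right _ (by omega)
      omega
    by_cases hds : d < s
    · refine hbr (hpow _ ?_)
      have h1 : (s + 1) * G.a ≤ (s + 1) * k :=
        hsk.trans (Nat.mul_le_mul_right _ (by omega))
      have h2 : G.a ≤ k := Nat.le_of_mul_le_mul_left h1 (by omega)
      omega
    -- the main algorithm
    obtain ⟨-, hcs, h2a, -⟩ := p_GRA G hab
    have hle1 : algV W T (rowsOf G) ≤ algY W T (List.replicate G.b true) (rowsOf G) := by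
      unfold algY
      rw [maxL_two, hB, hR, hab]
      simp
    have h1 := h_ALT.2 d s k W T (rowsOf G) (by rw [hR]; exact h_GRA G hab d s hN) (by omega)
      (by omega) (by rw [hR]; exact hsk) hw
    rw [hR, hcs] at h1
    exact err_mono hle1 (h1.trans h2a)

end Pool.Agent.BisRu
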