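import Pool.Agent.BisRu.Targets

/-!
# BRU: the first algorithm with trivial parameters is exact enough
-/

set_option autoImplicit false

namespace Pool.Agent.BisRu

open Finset Pool.Agent.PT Pool.Agent.BisTh Pool.Agent.BisRg Pool.Agent.BisRt

namespace BRU_

theorem sub_le (m r : ℕ) : BisRg.Sub m r ≤ 2 ^ m := by
  rw [← Nat.sum_range_choose m]
  unfold BisRg.Sub
  refine Finset.sum_le_sum_of_ne_zero fun i _ hi => ?_
  rw [Finset.mem_range]
  by_contra h
  exact hi (Nat.choose_eq_zero_of_lt (by omega))

end BRU_

open BRU_ in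
theorem u_BRU : U_BRU := by
  intro W T B R hB hW
  refine tALW.2 1 R.length le_rfl W T B R ?_ hW ((sub_le _ _).trans hW)
    ((sub_le _ _).trans (by rw [hB]; exact hW))
  intro X' Y' hX hY
  have h1 := hX.length_le
  have h2 := hY.length_le
  rw [List.length_range] at h2
  have h3 : R.length ≤ max R.length B.length := le_max_left _ _
  omega

end Pool.Agent.BisRu
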