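import Pool.Agent.BisRu.Targets
import Pool.Agent.BisRt.P_DBL

/-!
# Target DBL of BisRu: double counting and symmetry of the weight
-/

set_option autoImplicit false

namespace Pool.Agent.BisRu

open Finset Pool.Agent.PT Pool.Agent.BisTh Pool.Agent.BisRg Pool.Agent.BisRt

theorem u_DBL : U_DBL := by
  refine ⟨?_, ?_⟩
  · rintro adj n d s ⟨hr, hc⟩ X Y hX hY
    have h1 : d * X.card ≤
        ∑ i ∈ X, (nb adj Y i).card + ∑ i ∈ X, (nb adj (range n \ Y) i).card := by
      rw [← sum_add_distrib, mul_comm, ← smul_eq_mul, ← sum_const]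
      refine sum_le_sum fun i hi => ?_
      rw [BisRt.DBL_.add_nb adj hY]
      exact (hr i (mem_range.1 (hX hi))).1
    have h2 : ∑ j ∈ range n \ Y, (nb (tr adj) X j).card +
        ∑ j ∈ range n \ Y, (nb (tr adj) (range n \ X) j).card ≤
          (d + s) * (range n \ Y).card := by
      rw [← sum_add_distrib, mul_comm, ← smul_eq_mul, ← sum_const]
      refine sum_le_sum fun j hj => ?_
      rw [BisRt.DBL_.add_nb (tr adj) hX]
      exact (hc j (mem_range.1 (mem_sdiff.1 hj).1)).2
    have h3 : ∑ i ∈ X, (nb adj (range n \ Y) i).card =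
        ∑ j ∈ range n \ Y, (nb (tr adj) X j).card := BisRt.DBL_.dbl adj _ _
    have h4 : Ed adj n X Y = ∑ j ∈ range n \ Y, (nb (tr adj) (range n \ X) j).card :=
      BisRt.DBL_.dbl adj _ _
    have h5 : (range n \ Y).card + Y.card = n := by
      rw [card_sdiff_add_card_eq_card hY, card_range]
    rw [h3] at h1
    rw [← h4] at h2
    have h6 : d * (range n \ Y).card + d * Y.card = d * n := by rw [← mul_add, h5]
    have h7 : s * (range n \ Y).card ≤ s * n := Nat.mul_le_mul le_rfl (by omega)
    rw [add_mul] at h2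
    rw [mul_add]
    omega
  · intro adj n d θ X Y
    unfold Wu Pu
    have h : Ed adj n X Y = Ed (tr adj) n Y X := BisRt.DBL_.dbl adj _ _
    have ht : tr (tr adj) = adj := rfl
    rw [h, ht, add_comm (X.card : ℝ) Y.card, add_comm (Su adj n d X Y)]

end Pool.Agent.BisRu
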