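import Pool.Agent.BisRu.Targets

/-!
# Target DPI of the project BisRu (MP_29585b_lc): the potential when a vertex and its neighbours
are removed
-/

set_option autoImplicit false

namespace Pool.Agent.BisRu

open Finset Pool.Agent.PT Pool.Agent.BisTh Pool.Agent.BisRg Pool.Agent.BisRt

namespace DPI_

theorem hi_sub (adj : ℕ → ℕ → Bool) (d : ℕ) {X X' Y Y' : Finset ℕ} (hX : X' ⊆ X) (hY : Y' ⊆ Y) :
    hi adj d X' Y' ⊆ hi adj d X Y := by
  intro i h
  simp only [hi, mem_filter] at h ⊢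
  refine ⟨hX h.1, h.2.trans_le ?_⟩
  have h5 : (nb adj Y' i).card ≤ (nb adj Y i).card := by
    refine Finset.card_le_card fun j hj => ?_
    simp only [nb, mem_filter] at hj ⊢
    exact ⟨hY hj.1, hj.2⟩
  omega

/-- the left side -/
theorem left (h_INN : U_INN) (h_FFF : U_FFF) (adj : ℕ → ℕ → Bool) (n d s : ℕ)
    (hreg : NReg adj n d s) (hd : 1 ≤ d) (hs : s ≤ d) (X Y : Finset ℕ)
    (hX : X ⊆ range n) (hY : Y ⊆ range n) (u : ℕ) (hu : u ∈ X) :
    Su adj n d (X.erase u) (Y \ nb adj Y u) ≤ Su adj n d X Y + (inc adj n X Y u : ℝ) / 2 := by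
  obtain ⟨-, h2, -, h4⟩ := h_INN adj n d s hreg X Y hX hY u hu
  obtain ⟨f1, -, f3, -⟩ := h_FFF
  have hd0 : (0 : ℝ) < d := by exact_mod_cast hd
  have hsub : hi adj d (X.erase u) (Y \ nb adj Y u) ⊆ hi adj d X Y :=
    hi_sub adj d (Finset.erase_subset _ _) Finset.sdiff_subset
  have hterm : ∀ i ∈ hi adj d X Y,
      Fu ((inc adj n (X.erase u) (Y \ nb adj Y u) i : ℝ) / d) ≤ Fu ((inc adj n X Y i : ℝ) / d) +
        ((∑ j ∈ ov adj Y u i, (nb (tr adj) (range n \ X) j).card : ℕ) : ℝ) / (4 * d) := by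
    intro i _
    obtain ⟨r, hr⟩ : ∃ r : ℕ, r = ∑ j ∈ ov adj Y u i, (nb (tr adj) (range n \ X) j).card := ⟨_, rfl⟩
    have h5 := h2 i
    rw [← hr] at h5 ⊢
    have h6 : (inc adj n X Y i : ℝ) = inc adj n (X.erase u) (Y \ nb adj Y u) i + r := by
      exact_mod_cast h5.symm
    have h7 := f3 ((inc adj n (X.erase u) (Y \ nb adj Y u) i : ℝ) / d)
      ((inc adj n X Y i : ℝ) / d) (by positivity) (by
        rw [h6]
        gcongr
        have : (0 : ℝ) ≤ r := by positivity
        linarith)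
    have h8 : (inc adj n X Y i : ℝ) / d - (inc adj n (X.erase u) (Y \ nb adj Y u) i : ℝ) / d =
        (r : ℝ) / d := by
      rw [h6, add_div]
      ring
    rw [h8] at h7
    have h9 : (r : ℝ) / d / 4 = (r : ℝ) / (4 * d) := by
      rw [div_div, mul_comm]
    linarith
  have hsum : ((∑ i ∈ hi adj d X Y, ∑ j ∈ ov adj Y u i,
      (nb (tr adj) (range n \ X) j).card : ℕ) : ℝ) ≤ 2 * d * (inc adj n X Y u : ℝ) := by
    have h5 : (∑ i ∈ hi adj d X Y, ∑ j ∈ ov adj Y u i, (nb (tr adj) (range n \ X) j).card) ≤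
        (d + s) * inc adj n X Y u := by
      refine le_trans ?_ h4
      exact Finset.sum_le_sum_of_subset (Finset.filter_subset _ _)
    have h6 : (d + s) * inc adj n X Y u ≤ 2 * d * inc adj n X Y u := by
      refine Nat.mul_le_mul_right _ ?_
      omega
    exact_mod_cast h5.trans h6
  calc Su adj n d (X.erase u) (Y \ nb adj Y u)
      ≤ ∑ i ∈ hi adj d X Y, Fu ((inc adj n (X.erase u) (Y \ nb adj Y u) i : ℝ) / d) := by
        unfold Su
        exact Finset.sum_le_sum_of_subset_of_nonneg hsub fun i _ _ => (f1 _).le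
    _ ≤ ∑ i ∈ hi adj d X Y, (Fu ((inc adj n X Y i : ℝ) / d) +
        ((∑ j ∈ ov adj Y u i, (nb (tr adj) (range n \ X) j).card : ℕ) : ℝ) / (4 * d)) :=
        Finset.sum_le_sum hterm
    _ = Su adj n d X Y + ((∑ i ∈ hi adj d X Y, ∑ j ∈ ov adj Y u i,
          (nb (tr adj) (range n \ X) j).card : ℕ) : ℝ) / (4 * d) := by
        rw [Finset.sum_add_distrib, ← Finset.sum_div]
        push_cast
        rfl
    _ ≤ Su adj n d X Y + 2 * d * (inc adj n X Y u : ℝ) / (4 * d) := by
        have := div_le_div_of_nonneg_right hsum (by positivity : (0 : ℝ) ≤ 4 * d)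
        linarith
    _ = Su adj n d X Y + (inc adj n X Y u : ℝ) / 2 := by
        congr 1
        field_simp
        ring

/-- the right side -/
theorem right (h_INN : U_INN) (h_FFF : U_FFF) (adj : ℕ → ℕ → Bool) (n d s : ℕ)
    (hreg : NReg adj n d s) (X Y : Finset ℕ)
    (hX : X ⊆ range n) (hY : Y ⊆ range n) (u : ℕ) (hu : u ∈ X) :
    Su (tr adj) n d (Y \ nb adj Y u) (X.erase u) ≤ Su (tr adj) n d Y X := by
  obtain ⟨-, -, h3, -⟩ := h_INN adj n d s hreg X Y hX hY u hu
  obtain ⟨f1, f2, -, -⟩ := h_FFF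
  have hsub : hi (tr adj) d (Y \ nb adj Y u) (X.erase u) ⊆ hi (tr adj) d Y X :=
    hi_sub (tr adj) d Finset.sdiff_subset (Finset.erase_subset _ _)
  unfold Su
  calc ∑ j ∈ hi (tr adj) d (Y \ nb adj Y u) (X.erase u),
        Fu ((inc (tr adj) n (Y \ nb adj Y u) (X.erase u) j : ℝ) / d)
      ≤ ∑ j ∈ hi (tr adj) d (Y \ nb adj Y u) (X.erase u),
        Fu ((inc (tr adj) n Y X j : ℝ) / d) := by
        refine Finset.sum_le_sum fun j hj => f2 _ _ ?_
        have hj1 : j ∈ Y \ nb adj Y u := (Finset.mem_filter.1 hj).1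
        have h5 : (inc (tr adj) n Y X j : ℝ) ≤ inc (tr adj) n (Y \ nb adj Y u) (X.erase u) j := by
          exact_mod_cast h3 j hj1
        exact div_le_div_of_nonneg_right h5 (Nat.cast_nonneg d)
    _ ≤ _ := Finset.sum_le_sum_of_subset_of_nonneg hsub fun i _ _ => (f1 _).le

end DPI_

open DPI_ in
theorem u_DPI (h_INN : U_INN) (h_FFF : U_FFF) : U_DPI := by
  intro adj n d s hreg hd hs θ hθ X Y hX hY u hu
  have huX : u ∈ X := (Finset.mem_filter.1 hu).1
  have hd0 : (0 : ℝ) < d := by exact_mod_cast hd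
  have hl := left h_INN h_FFF adj n d s hreg hd hs X Y hX hY u huX
  have hr := right h_INN h_FFF adj n d s hreg X Y hX hY u huX
  obtain ⟨h1, -, -, -⟩ := h_INN adj n d s hreg X Y hX hY u huX
  have hN : d < 5 * (nb adj Y u).card := (Finset.mem_filter.1 hu).2
  have hcX : (X.erase u).card + 1 = X.card := Finset.card_erase_add_one huX
  have hcY : (Y \ nb adj Y u).card + (nb adj Y u).card = Y.card := by
    refine Finset.card_sdiff_add_card_eq_card ?_
    exact Finset.filter_subset _ _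
  have hcX' : ((X.erase u).card : ℝ) + 1 = X.card := by exact_mod_cast hcX
  have hcY' : ((Y \ nb adj Y u).card : ℝ) + (nb adj Y u).card = Y.card := by exact_mod_cast hcY
  have hN' : (d : ℝ) < 5 * (nb adj Y u).card := by exact_mod_cast hN
  have h1' : (Ed adj n X Y : ℝ) + d + inc adj n X Y u ≤
      Ed adj n (X.erase u) (Y \ nb adj Y u) := by exact_mod_cast h1
  unfold Pu
  have hc0 : (0 : ℝ) ≤ inc adj n X Y u := Nat.cast_nonneg _
  have hmain : -(θ * (Ed adj n (X.erase u) (Y \ nb adj Y u) : ℝ)) +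
      35 * (((X.erase u).card : ℝ) + (Y \ nb adj Y u).card) +
      (Su adj n d (X.erase u) (Y \ nb adj Y u) + Su (tr adj) n d (Y \ nb adj Y u) (X.erase u)) +
      7 * d + (inc adj n X Y u : ℝ) / 10 ≤
      -(θ * (Ed adj n X Y : ℝ)) + 35 * ((X.card : ℝ) + Y.card) +
        (Su adj n d X Y + Su (tr adj) n d Y X) := by
    have h2 : θ * ((Ed adj n X Y : ℝ) + d + inc adj n X Y u) ≤
        θ * Ed adj n (X.erase u) (Y \ nb adj Y u) :=
      mul_le_mul_of_nonneg_left h1' (by linarith)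
    have h3 : 3 / 5 * ((d : ℝ) + inc adj n X Y u) ≤ θ * ((d : ℝ) + inc adj n X Y u) :=
      mul_le_mul_of_nonneg_right hθ (by positivity)
    have h4 : θ * ((Ed adj n X Y : ℝ) + d + inc adj n X Y u) =
        θ * Ed adj n X Y + θ * ((d : ℝ) + inc adj n X Y u) := by ring
    linarith
  have h2 := div_le_div_of_nonneg_right hmain hd0.le
  refine le_trans (le_of_eq ?_) (h2.trans (le_of_eq ?_))
  · field_simp
  · ring

end Pool.Agent.BisRu
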