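import Pool.Agent.BisRu.Targets
import Pool.Agent.BisRt.P_OUT

/-!
# Target DPO of the project BisRu (MP_29585b_lc): the potential when a vertex is removed
-/

set_option autoImplicit false

namespace Pool.Agent.BisRu

open Finset Pool.Agent.PT Pool.Agent.BisTh Pool.Agent.BisRg Pool.Agent.BisRt

namespace DPO_

/-- the left side -/
theorem left (h_OUT : T_OUT) (h_FFF : U_FFF) (adj : ℕ → ℕ → Bool) (n d : ℕ) (X Y : Finset ℕ)
    (hX : X ⊆ range n) (hY : Y ⊆ range n) (u : ℕ) (hu : u ∈ X) :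
    Su adj n d (X.erase u) Y + ∑ i ∈ (hi adj d X Y).erase u,
      (Fu ((inc adj n X Y i : ℝ) / d) -
        Fu ((inc adj n X Y i : ℝ) / d + ((ov adj Y u i).card : ℝ) / d)) ≤ Su adj n d X Y := by
  obtain ⟨-, h2, -, -⟩ := h_OUT adj n X Y hX hY u hu
  have e1 : hi adj d (X.erase u) Y = (hi adj d X Y).erase u := by
    ext i
    simp only [hi, mem_filter, mem_erase]
    tauto
  have e2 : Su adj n d (X.erase u) Y = ∑ i ∈ (hi adj d X Y).erase u,
      Fu ((inc adj n X Y i : ℝ) / d + ((ov adj Y u i).card : ℝ) / d) := by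
    unfold Su
    rw [e1]
    refine Finset.sum_congr rfl fun i _ => ?_
    rw [h2 i]
    push_cast
    rw [add_div]
  rw [e2, ← Finset.sum_add_distrib]
  calc ∑ i ∈ (hi adj d X Y).erase u,
        (Fu ((inc adj n X Y i : ℝ) / d + ((ov adj Y u i).card : ℝ) / d) +
          (Fu ((inc adj n X Y i : ℝ) / d) -
            Fu ((inc adj n X Y i : ℝ) / d + ((ov adj Y u i).card : ℝ) / d)))
      = ∑ i ∈ (hi adj d X Y).erase u, Fu ((inc adj n X Y i : ℝ) / d) :=
        Finset.sum_congr rfl fun i _ => by ring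
    _ ≤ Su adj n d X Y := by
        unfold Su
        exact Finset.sum_le_sum_of_subset_of_nonneg (Finset.erase_subset _ _)
          fun i _ _ => (h_FFF.1 _).le

/-- the right side -/
theorem right (h_REG : U_REG) (h_OUT : T_OUT) (h_FFF : U_FFF) (adj : ℕ → ℕ → Bool) (n d s : ℕ)
    (hreg : NReg adj n d s) (hd : 1 ≤ d) (hs : s ≤ d) (X Y : Finset ℕ)
    (hX : X ⊆ range n) (hY : Y ⊆ range n) (u : ℕ) (hu : u ∈ X) :
    Su (tr adj) n d Y (X.erase u) ≤ Su (tr adj) n d Y X +
      ((nb adj (range n \ Y) u).card : ℝ) / 2 := by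
  obtain ⟨-, -, h3, h4⟩ := h_OUT adj n X Y hX hY u hu
  obtain ⟨f1, -, f3, -⟩ := h_FFF
  have hd0 : (0 : ℝ) < d := by exact_mod_cast hd
  obtain ⟨r, hr⟩ : ∃ r : ℕ, r = (nb adj (range n \ Y) u).card := ⟨_, rfl⟩
  rw [← hr] at h3 ⊢
  have hsub : hi (tr adj) d Y (X.erase u) ⊆ hi (tr adj) d Y X := by
    intro j hj
    simp only [hi, mem_filter] at hj ⊢
    refine ⟨hj.1, hj.2.trans_le ?_⟩
    have h5 : (nb (tr adj) (X.erase u) j).card ≤ (nb (tr adj) X j).card := by
      refine Finset.card_le_card ?_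
      intro i hi'
      simp only [nb, mem_filter, mem_erase] at hi' ⊢
      exact ⟨hi'.1.2, hi'.2⟩
    omega
  have hterm : ∀ j ∈ hi (tr adj) d Y X,
      Fu ((inc (tr adj) n Y (X.erase u) j : ℝ) / d) ≤ Fu ((inc (tr adj) n Y X j : ℝ) / d) +
        (if adj u j = true then (r : ℝ) / d / 4 else 0) := by
    intro j _
    by_cases h : adj u j = true
    · rw [if_pos h]
      have h5 := h3 j h
      have h6 : (inc (tr adj) n Y X j : ℝ) = inc (tr adj) n Y (X.erase u) j + r := by
        exact_mod_cast h5.symm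
      have h7 := f3 ((inc (tr adj) n Y (X.erase u) j : ℝ) / d) ((inc (tr adj) n Y X j : ℝ) / d)
        (by positivity) (by
          rw [h6]
          gcongr
          have : (0 : ℝ) ≤ r := by positivity
          linarith)
      have h8 : (inc (tr adj) n Y X j : ℝ) / d - (inc (tr adj) n Y (X.erase u) j : ℝ) / d =
          (r : ℝ) / d := by
        rw [h6, add_div]
        ring
      rw [h8] at h7
      linarith
    · rw [if_neg h, add_zero]
      rw [h4 j (by simpa using h)]
  have hcard : ((hi (tr adj) d Y X).filter fun j => adj u j = true).card ≤ 2 * d := by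
    have hun : u < n := Finset.mem_range.1 (hX hu)
    have h5 := ((h_REG adj n d s hreg).2.2 Y hY u hun).1
    refine le_trans (le_trans (Finset.card_le_card ?_) h5) (by omega)
    intro j hj
    rw [Finset.mem_filter] at hj
    have hj1 := hj.1
    rw [hi, Finset.mem_filter] at hj1
    rw [nb, Finset.mem_filter]
    exact ⟨hj1.1, hj.2⟩
  calc Su (tr adj) n d Y (X.erase u)
      ≤ ∑ j ∈ hi (tr adj) d Y X, Fu ((inc (tr adj) n Y (X.erase u) j : ℝ) / d) := by
        unfold Su
        exact Finset.sum_le_sum_of_subset_of_nonneg hsub fun i _ _ => (f1 _).le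
    _ ≤ ∑ j ∈ hi (tr adj) d Y X, (Fu ((inc (tr adj) n Y X j : ℝ) / d) +
        (if adj u j = true then (r : ℝ) / d / 4 else 0)) := Finset.sum_le_sum hterm
    _ = Su (tr adj) n d Y X +
        ((hi (tr adj) d Y X).filter fun j => adj u j = true).card * ((r : ℝ) / d / 4) := by
        rw [Finset.sum_add_distrib, ← Finset.sum_filter, Finset.sum_const, nsmul_eq_mul]
        rfl
    _ ≤ Su (tr adj) n d Y X + 2 * d * ((r : ℝ) / d / 4) := by
        have h9 : (((hi (tr adj) d Y X).filter fun j => adj u j = true).card : ℝ) ≤ 2 * d := by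
          exact_mod_cast hcard
        have h10 : 0 ≤ (r : ℝ) / d / 4 := by positivity
        have := mul_le_mul_of_nonneg_right h9 h10
        linarith
    _ = Su (tr adj) n d Y X + (r : ℝ) / 2 := by
        congr 1
        field_simp
        ring

end DPO_

open DPO_ in
theorem u_DPO (h_REG : U_REG) (h_FFF : U_FFF) : U_DPO := by
  intro adj n d s hreg hd hs θ hθ X Y hX hY u hu
  have h_OUT : T_OUT := p_OUT
  have hd0 : (0 : ℝ) < d := by exact_mod_cast hd
  have hl := left h_OUT h_FFF adj n d X Y hX hY u hu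
  have hr := right h_REG h_OUT h_FFF adj n d s hreg hd hs X Y hX hY u hu
  obtain ⟨h1, -, -, -⟩ := h_OUT adj n X Y hX hY u hu
  obtain ⟨r, hrr⟩ : ∃ r : ℕ, r = (nb adj (range n \ Y) u).card := ⟨_, rfl⟩
  obtain ⟨Δ, hΔ⟩ : ∃ Δ : ℝ, Δ = ∑ i ∈ (hi adj d X Y).erase u,
      (Fu ((inc adj n X Y i : ℝ) / d) -
        Fu ((inc adj n X Y i : ℝ) / d + ((ov adj Y u i).card : ℝ) / d)) := ⟨_, rfl⟩
  rw [← hrr] at hr h1
  rw [← hΔ] at hl ⊢
  have hc : (((X.erase u).card : ℕ) : ℝ) ≤ X.card := by
    exact_mod_cast Finset.card_le_card (Finset.erase_subset u X)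
  unfold Pu
  rw [h1]
  push_cast
  have hmain : -(θ * ((Ed adj n X Y : ℝ) + r)) + 35 * (((X.erase u).card : ℝ) + Y.card) +
      (Su adj n d (X.erase u) Y + Su (tr adj) n d Y (X.erase u)) + Δ ≤
      -(θ * (Ed adj n X Y : ℝ)) + 35 * ((X.card : ℝ) + Y.card) +
        (Su adj n d X Y + Su (tr adj) n d Y X) := by
    have h0 : (0 : ℝ) ≤ r := by positivity
    nlinarith
  have h2 := div_le_div_of_nonneg_right hmain hd0.le
  refine le_trans (le_of_eq ?_) (h2.trans (le_of_eq ?_))
  · ring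
  · ring

end Pool.Agent.BisRu
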