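import Pool.Agent.BisRu.Targets

/-!
# GAI: lower bound for the gain
-/

set_option autoImplicit false

namespace Pool.Agent.BisRu

open Finset Pool.Agent.PT Pool.Agent.BisTh Pool.Agent.BisRg Pool.Agent.BisRt

theorem u_GAI (h_REG : U_REG) (h_FFF : U_FFF) : U_GAI := by
  intro adj n d s hR hd hs X Y hX hY u hu hmax hov
  obtain ⟨-, -, h3⟩ := h_REG adj n d s hR
  obtain ⟨-, -, -, h4, -⟩ := h_FFF
  have hd0 : (0 : ℝ) < d := by exact_mod_cast hd
  have key : ∀ i ∈ (hi adj d X Y).erase u,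
      1 / 5 * Real.exp (-((inc adj n X Y u : ℝ) / d / 10)) / d * ((ov adj Y u i).card : ℝ) ≤
      Fu ((inc adj n X Y i : ℝ) / d) -
        Fu ((inc adj n X Y i : ℝ) / d + ((ov adj Y u i).card : ℝ) / d) := by
    intro i hA
    have hi1 : i ∈ hi adj d X Y := mem_of_mem_erase hA
    have hin : i < n := mem_range.1 (hX (mem_filter.1 hi1).1)
    have ho : ((ov adj Y u i).card : ℝ) / d ≤ 2 := by
      rw [div_le_iff₀ hd0]
      have h5 : (ov adj Y u i).card ≤ 2 * d :=
        ((card_le_card inter_subset_left).trans (h3 Y hY i hin).1).trans (by omega)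
      exact_mod_cast h5
    have hx : (inc adj n X Y i : ℝ) / d ≤ (inc adj n X Y u : ℝ) / d := by
      have h6 : (inc adj n X Y i : ℝ) ≤ inc adj n X Y u := by exact_mod_cast hmax i hi1
      exact div_le_div_of_nonneg_right h6 hd0.le
    refine le_trans ?_ (h4 _ _ (by positivity) ho)
    have he : Real.exp (-((inc adj n X Y u : ℝ) / d / 10)) ≤
        Real.exp (-((inc adj n X Y i : ℝ) / d / 10)) := Real.exp_le_exp.2 (by linarith)
    calc 1 / 5 * Real.exp (-((inc adj n X Y u : ℝ) / d / 10)) / d * ((ov adj Y u i).card : ℝ)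
        = 1 / 5 * (((ov adj Y u i).card : ℝ) / d) *
            Real.exp (-((inc adj n X Y u : ℝ) / d / 10)) := by ring
      _ ≤ _ := mul_le_mul_of_nonneg_left he (by positivity)
  have hsum := sum_le_sum key
  rw [← mul_sum] at hsum
  have hov' : (d : ℝ) * d ≤ 100 * ∑ i ∈ (hi adj d X Y).erase u, ((ov adj Y u i).card : ℝ) := by
    exact_mod_cast hov
  rw [le_div_iff₀ hd0]
  refine le_trans ?_ hsum
  generalize ∑ i ∈ (hi adj d X Y).erase u, ((ov adj Y u i).card : ℝ) = σ at hov' ⊢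
  have hE := Real.exp_pos (-((inc adj n X Y u : ℝ) / d / 10))
  generalize Real.exp (-((inc adj n X Y u : ℝ) / d / 10)) = e at hE ⊢
  have h7 : 1 / 5 * e / d * ((d : ℝ) * d / 100) = 1 / 500 * (e * d) := by
    field_simp
    ring
  have h8 : 0 < e * d := mul_pos hE hd0
  calc 1 / 500 * e * d ≤ 1 / 5 * e / d * ((d : ℝ) * d / 100) := by rw [h7, mul_assoc]
    _ ≤ 1 / 5 * e / d * σ := mul_le_mul_of_nonneg_left (by linarith) (by positivity)

end Pool.Agent.BisRu
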