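import Pool.Agent.BisRu.Targets
import Pool.Agent.BisRt.P_GRA

/-!
# GRA: graphs and rows (variant for all degrees between `d` and `d + s`)
-/

set_option autoImplicit false

namespace Pool.Agent.BisRu

open Finset Pool.Agent.PT Pool.Agent.BisTh Pool.Agent.BisRg Pool.Agent.BisRt

theorem u_GRA : U_GRA := by
  rintro G hab d s ⟨-, hL, hR⟩
  refine ⟨fun i hi => ?_, fun j hj => ?_⟩
  · have h1 := Pool.Agent.BisRt.GRA_.degL_eq G ⟨i, hi⟩
    rw [← hab] at h1
    rw [h1]
    exact hL ⟨i, hi⟩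
  · have hj' : j < G.b := hab ▸ hj
    have h1 := Pool.Agent.BisRt.GRA_.degR_eq G ⟨j, hj'⟩
    have h2 : ((range G.a).filter fun i => aj (rowsOf G) i j = true).card = G.degR ⟨j, hj'⟩ := h1
    rw [h2]
    exact hR ⟨j, hj'⟩

end Pool.Agent.BisRu
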