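import Pool.Agent.BisRu.Targets
import Pool.Agent.BisRt.P_EDG
import Pool.Agent.BisRt.P_LFB

/-!
# LFB: the bound for a leaf
-/

set_option autoImplicit false

namespace Pool.Agent.BisRu

open Finset Pool.Agent.PT Pool.Agent.BisTh Pool.Agent.BisRg Pool.Agent.BisRt

namespace LFB_

/-- the numerical part -/
theorem final (n d E e x : ℕ) (hd : 5 ≤ d) (hx : d * x + E ≤ d * n + e) (r c : ℝ) (hr : 1 ≤ r)
    (hc : 0 < c) (hr2 : 2 * Real.log 2 ≤ d * Real.log r) (h : r ^ e * c ≤ 2 ^ x) :
    c ≤ 2 ^ n * Real.exp (-(69 / 100 * ((E : ℝ) / d))) := by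
  have hd0 : (0 : ℝ) < d := by
    have : 0 < d := by omega
    exact_mod_cast this
  have hre : (0 : ℝ) < r ^ e := by positivity
  have h1 : (e : ℝ) * Real.log r + Real.log c ≤ x * Real.log 2 := by
    have h2 := Real.log_le_log (by positivity) h
    rwa [Real.log_mul hre.ne' hc.ne', Real.log_pow, Real.log_pow] at h2
  have hx' : (d : ℝ) * x + E ≤ d * n + e := by exact_mod_cast hx
  have hl : (69 / 100 : ℝ) ≤ Real.log 2 := by
    have := Real.log_two_gt_d9
    linarith
  have hl0 : (0 : ℝ) ≤ Real.log 2 := by linarith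
  have he : (0 : ℝ) ≤ e := Nat.cast_nonneg e
  have hE : (0 : ℝ) ≤ E := Nat.cast_nonneg E
  have h3 : (e : ℝ) * (2 * Real.log 2) ≤ e * (d * Real.log r) :=
    mul_le_mul_of_nonneg_left hr2 he
  have h4 : d * Real.log c ≤ d * (n * Real.log 2) - 69 / 100 * E := by
    have h5 : d * ((e : ℝ) * Real.log r + Real.log c) ≤ d * (x * Real.log 2) :=
      mul_le_mul_of_nonneg_left h1 hd0.le
    have h6 : d * ((x : ℝ) * Real.log 2) ≤ (d * n + e - E) * Real.log 2 := by
      have h66 : (d : ℝ) * x ≤ d * n + e - E := by linarith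
      have h67 := mul_le_mul_of_nonneg_right h66 hl0
      linarith
    have h7 : 0 ≤ (e : ℝ) * Real.log 2 := mul_nonneg he hl0
    have h8 : (69 / 100 : ℝ) * E ≤ Real.log 2 * E := mul_le_mul_of_nonneg_right hl hE
    nlinarith
  have h9 : Real.log c ≤ n * Real.log 2 + -(69 / 100 * ((E : ℝ) / d)) := by
    have h10 : d * Real.log c ≤ d * (n * Real.log 2 + -(69 / 100 * ((E : ℝ) / d))) := by
      have h11 : d * (n * Real.log 2 + -(69 / 100 * ((E : ℝ) / d))) =
          d * (n * Real.log 2) - 69 / 100 * E := by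
        field_simp
        ring
      rw [h11]
      exact h4
    exact le_of_mul_le_mul_left h10 hd0
  calc c = Real.exp (Real.log c) := (Real.exp_log hc).symm
    _ ≤ Real.exp (n * Real.log 2 + -(69 / 100 * ((E : ℝ) / d))) := Real.exp_le_exp.2 h9
    _ = 2 ^ n * Real.exp (-(69 / 100 * ((E : ℝ) / d))) := by
      rw [Real.exp_add, ← Real.log_pow, Real.exp_log (by positivity)]

end LFB_

theorem u_LFB (h_DBL : U_DBL) : U_LFB := by
  intro R n d σ c hReg hσ hd s hs hlow
  obtain ⟨e1, e2, e3⟩ := p_EDG R n s hs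
  obtain ⟨g1, g2, g3, g4⟩ := hs
  have hX : s.1.toFinset ⊆ range n := fun i hi => mem_range.2 (g3 i (List.mem_toFinset.1 hi))
  have hY : s.2.toFinset ⊆ range n := fun j hj => mem_range.2 (g4 j (List.mem_toFinset.1 hj))
  have h3 := h_DBL.1 (aj R) n d σ hReg _ _ hX hY
  rw [← e3, List.toFinset_card_of_nodup g1, List.toFinset_card_of_nodup g2] at h3
  have h3' : d * (s.1.length + s.2.length) + Ed (aj R) n s.1.toFinset s.2.toFinset ≤
      d * (n + c) + edges (rws R s) s.2 := by
    rw [Nat.mul_add d n c]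
    omega
  obtain ⟨l1, l2⟩ := hlow
  have hu : ∀ u ∈ rws R s, dg u s.2 ≤ d / 5 := by
    intro u hu
    obtain ⟨i, hi', rfl⟩ := List.mem_map.1 hu
    rw [e1 i]
    by_contra hcon
    have h5 : i ∈ hi (aj R) d s.1.toFinset s.2.toFinset := by
      unfold hi
      rw [mem_filter]
      exact ⟨List.mem_toFinset.2 hi', by omega⟩
    rw [l1] at h5
    exact absurd h5 (notMem_empty _)
  have hj : ∀ j ∈ s.2, dgR (rws R s) j ≤ d / 5 := by
    intro j hj'
    rw [e2 j]
    by_contra hcon
    have h5 : j ∈ hi (tr (aj R)) d s.2.toFinset s.1.toFinset := by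
      unfold hi
      rw [mem_filter]
      exact ⟨List.mem_toFinset.2 hj', by omega⟩
    rw [l2] at h5
    exact absurd h5 (notMem_empty _)
  obtain ⟨r, hr1, hr2, hr3⟩ := Pool.Agent.BisRt.LFB_.exists_base d hd
  have h6 := p_MAS p_EFL (d / 5) r hr1 hr2 (rws R s) s.2 hu hj
  have hlen : (rws R s).length = s.1.length := List.length_map _
  rw [hlen] at h6
  have hc : (0 : ℝ) < (cs R s : ℝ) := by
    have h7 : 2 ^ s.2.length ≤ cs R s := cnt_ge_right _ _
    have h8 : 0 < cs R s := lt_of_lt_of_le (by positivity) h7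
    exact_mod_cast h8
  exact Pool.Agent.BisRu.LFB_.final (n + c) d _ _ _ hd h3' r _ hr1 hc hr3 h6

end Pool.Agent.BisRu
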