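import Pool.Agent.BisRu.Targets
import Pool.Agent.BisRg.Main
import Pool.Agent.BisRt.P_EDG

set_option autoImplicit false

/-!
# The error of a leaf (nearly regular graphs)
-/

namespace Pool.Agent.BisRu

open Finset Pool.Agent.PT Pool.Agent.BisTh Pool.Agent.BisRg Pool.Agent.BisRt

theorem u_LFE (h_DBL : U_DBL) : U_LFE := by
  intro R n d σ c hreg hσ hd s hs hlow k
  obtain ⟨hE1, hE2, hE3⟩ := p_EDG R n s hs
  obtain ⟨hN1, hN2, hI, hJ⟩ := hs
  obtain ⟨hl1, hl2⟩ := hlow
  have hX : s.1.toFinset ⊆ range n := fun i hi => mem_range.2 (hI i (List.mem_toFinset.1 hi))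
  have hY : s.2.toFinset ⊆ range n := fun j hj => mem_range.2 (hJ j (List.mem_toFinset.1 hj))
  have h3 := h_DBL.1 (aj R) n d σ hreg _ _ hX hY
  rw [List.toFinset_card_of_nodup hN1, List.toFinset_card_of_nodup hN2, ← hE3] at h3
  refine tLER d c n k hd (rws R s) s.2 ?_ ?_ ?_
  · intro u hu
    obtain ⟨i, him, rfl⟩ := List.mem_map.1 hu
    rw [hE1 i]
    by_contra hlt
    have h5 : i ∈ hi (aj R) d s.1.toFinset s.2.toFinset :=
      mem_filter.2 ⟨List.mem_toFinset.2 him, not_le.1 hlt⟩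
    rw [hl1] at h5
    exact absurd h5 (notMem_empty i)
  · intro j hj
    rw [hE2 j]
    by_contra hlt
    have h5 : j ∈ hi (tr (aj R)) d s.2.toFinset s.1.toFinset :=
      mem_filter.2 ⟨List.mem_toFinset.2 hj, not_le.1 hlt⟩
    rw [hl2] at h5
    exact absurd h5 (notMem_empty j)
  · have h6 : (rws R s).length = s.1.length := List.length_map _
    rw [h6, Nat.mul_add d n c]
    omega

end Pool.Agent.BisRu
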