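import Pool.Agent.BisRu.Targets
import Pool.Agent.BisRt.P_NUM

/-!
# Proof of NUM (MP_29585b_lc, bipartite graphs with degrees between `d` and `d + s`)

Numerical estimates for the growth factor and for the limits of the algorithm.
-/

set_option autoImplicit false

namespace Pool.Agent.BisRu

open Finset Pool.Agent.PT Pool.Agent.BisTh Pool.Agent.BisRg Pool.Agent.BisRt

namespace NUM_

theorem gr_pow (n d : ℕ) (hd : 135 ≤ d) :
    gr ((d - 10) / 125) ^ (2 * n) ≤ Real.exp (268 * ((n : ℝ) / d)) := by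
  have h134 : d ≤ 134 * ((d - 10) / 125 + 1) := by omega
  have hgr : gr ((d - 10) / 125) = 1 + Real.exp (-(((d - 10) / 125 : ℕ) : ℝ)) := rfl
  rw [hgr]
  generalize (d - 10) / 125 = q at *
  have hd0 : (0 : ℝ) < d := by
    have : 0 < d := by omega
    exact_mod_cast this
  have hq : (d : ℝ) ≤ 134 * ((q : ℝ) + 1) := by exact_mod_cast h134
  have hx0 : 0 < Real.exp (-(q : ℝ)) := Real.exp_pos _
  have hxm : Real.exp (-(q : ℝ)) * Real.exp (q : ℝ) = 1 := by
    rw [← Real.exp_add, neg_add_cancel, Real.exp_zero]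
  have hqe : (q : ℝ) + 1 ≤ Real.exp (q : ℝ) := Real.add_one_le_exp _
  generalize Real.exp (-(q : ℝ)) = x at *
  have h1 : x * ((q : ℝ) + 1) ≤ 1 :=
    (mul_le_mul_of_nonneg_left hqe hx0.le).trans_eq hxm
  have h2 : x * d ≤ 134 := by
    calc x * d ≤ x * (134 * ((q : ℝ) + 1)) := mul_le_mul_of_nonneg_left hq hx0.le
      _ = 134 * (x * ((q : ℝ) + 1)) := by ring
      _ ≤ 134 := by linarith
  have h3 : x ≤ 134 / d := by
    rw [le_div_iff₀ hd0]
    exact h2
  have h5 : 2 * (n : ℝ) * x ≤ 268 * ((n : ℝ) / d) := by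
    calc 2 * (n : ℝ) * x ≤ 2 * (n : ℝ) * (134 / d) :=
          mul_le_mul_of_nonneg_left h3 (by positivity)
      _ = 268 * ((n : ℝ) / d) := by ring
  calc (1 + x) ^ (2 * n) ≤ (Real.exp x) ^ (2 * n) := by
        apply pow_le_pow_left₀ (by positivity)
        have := Real.add_one_le_exp x
        linarith
    _ = Real.exp (2 * (n : ℝ) * x) := by
        rw [← Real.exp_nat_mul]
        push_cast
        rfl
    _ ≤ Real.exp (268 * ((n : ℝ) / d)) := Real.exp_le_exp.mpr h5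

/-- `e ^ (4548 m) ≤ (2 ^ m) ^ 6822`. -/
theorem exp_le (m : ℕ) : Real.exp (4548 * (m : ℝ)) ≤ ((2 : ℝ) ^ m) ^ 6822 := by
  have h1 : Real.exp (4548 * (m : ℝ)) = (Real.exp 2) ^ (2274 * m) := by
    rw [← Real.exp_nat_mul]
    congr 1
    push_cast
    ring
  have h2 : (8 : ℝ) ^ (2274 * m) = ((2 : ℝ) ^ m) ^ 6822 := by
    have h3 : (8 : ℝ) = 2 ^ 3 := by norm_num
    rw [h3, ← pow_mul, ← pow_mul]
    congr 1
    ring
  rw [h1, ← h2]
  exact pow_le_pow_left₀ (Real.exp_pos 2).le Pool.Agent.BisRt.NUM_.exp_two_le _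

end NUM_

theorem u_NUM : U_NUM := by
  refine ⟨fun d hd => by omega, fun n d hd => Pool.Agent.BisRu.NUM_.gr_pow n d hd, ?_⟩
  intro n d k w t hd hn hk ht
  have hw : 1 ≤ w := le_trans Nat.one_le_two_pow hk
  have hks : k < Nat.size w := Nat.lt_size.mpr hk
  have hd0 : (0 : ℝ) < d := by exact_mod_cast hd
  have hst : 0 < Nat.size t := Nat.size_pos.mpr ht
  have hnd : (n : ℝ) / d ≤ k := by
    rw [div_le_iff₀ hd0]
    have : (n : ℝ) ≤ (d : ℝ) * k := by exact_mod_cast hn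
    linarith
  have hKd : (((d * (7000 * (Nat.size w + Nat.size t + 1)) : ℕ) : ℝ) / d) =
      7000 * ((Nat.size w : ℝ) + Nat.size t + 1) := by
    push_cast
    field_simp
  have hks' : (k : ℝ) + 1 ≤ Nat.size w := by exact_mod_cast hks
  have hst' : (1 : ℝ) ≤ Nat.size t := by exact_mod_cast hst
  rw [hKd]
  constructor
  · rw [← Real.exp_add, ← Real.exp_add]
    have h1 : Real.exp (268 * ((n : ℝ) / d) + 80 * ((n : ℝ) / d) +
        3 / 5 * (7000 * ((Nat.size w : ℝ) + Nat.size t + 1))) ≤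
        Real.exp (4548 * ((Nat.size w + Nat.size t + 1 : ℕ) : ℝ)) := by
      apply Real.exp_le_exp.mpr
      push_cast
      linarith
    have h2 := Pool.Agent.BisRu.NUM_.exp_le (Nat.size w + Nat.size t + 1)
    have h3 : ((2 : ℝ) ^ (Nat.size w + Nat.size t + 1)) ≤ ((2 * w + 2 * t + 3 : ℕ) : ℝ) ^ 2 := by
      exact_mod_cast Pool.Agent.BisRt.NUM_.two_pow_le w t hw ht
    have h4 : ((2 : ℝ) ^ (Nat.size w + Nat.size t + 1)) ^ 6822 ≤
        (((2 * w + 2 * t + 3 : ℕ) : ℝ) ^ 2) ^ 6822 :=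
      pow_le_pow_left₀ (by positivity) h3 _
    have h5 : (((2 * w + 2 * t + 3 : ℕ) : ℝ) ^ 2) ^ 6822 ≤
        ((2 * w + 2 * t + 3 : ℕ) : ℝ) ^ 14000 := by
      rw [← pow_mul]
      apply pow_le_pow_right₀
      · have : 1 ≤ 2 * w + 2 * t + 3 := by omega
        exact_mod_cast this
      · norm_num
    have h6 : (((2 * w + 2 * t + 3) ^ 14000 : ℕ) : ℝ) = ((2 * w + 2 * t + 3 : ℕ) : ℝ) ^ 14000 :=
      Nat.cast_pow _ _
    rw [h6]
    exact h1.trans (h2.trans (h4.trans h5))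
  · have h1 : 2 * (t : ℝ) ≤ Real.exp ((Nat.size t + 1 : ℕ) : ℝ) := by
      have h2 : t < 2 ^ (Nat.size t) := Nat.lt_size_self t
      have h3 : 2 * t ≤ 2 ^ (Nat.size t + 1) := by
        rw [pow_succ]
        omega
      have h4 : 2 * (t : ℝ) ≤ 2 ^ (Nat.size t + 1) := by exact_mod_cast h3
      exact h4.trans (Pool.Agent.BisRt.NUM_.two_pow_le_exp _)
    have h2k := Pool.Agent.BisRt.NUM_.two_pow_le_exp k
    have hB : (2 : ℝ) ^ k * Real.exp (268 * ((n : ℝ) / d)) *
        Real.exp (-(9 / 100 * (7000 * ((Nat.size w : ℝ) + Nat.size t + 1)))) *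
        (Real.exp (268 * ((n : ℝ) / d)) * Real.exp (80 * ((n : ℝ) / d))) ≤
        Real.exp (-((Nat.size t + 1 : ℕ) : ℝ)) := by
      calc (2 : ℝ) ^ k * Real.exp (268 * ((n : ℝ) / d)) *
            Real.exp (-(9 / 100 * (7000 * ((Nat.size w : ℝ) + Nat.size t + 1)))) *
            (Real.exp (268 * ((n : ℝ) / d)) * Real.exp (80 * ((n : ℝ) / d)))
          ≤ Real.exp (k : ℝ) * Real.exp (268 * ((n : ℝ) / d)) *
            Real.exp (-(9 / 100 * (7000 * ((Nat.size w : ℝ) + Nat.size t + 1)))) *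
            (Real.exp (268 * ((n : ℝ) / d)) * Real.exp (80 * ((n : ℝ) / d))) := by
            apply mul_le_mul_of_nonneg_right _ (by positivity)
            apply mul_le_mul_of_nonneg_right _ (by positivity)
            exact mul_le_mul_of_nonneg_right h2k (by positivity)
        _ ≤ Real.exp (-((Nat.size t + 1 : ℕ) : ℝ)) := by
            rw [← Real.exp_add, ← Real.exp_add, ← Real.exp_add, ← Real.exp_add]
            apply Real.exp_le_exp.mpr
            push_cast
            linarith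
    calc 2 * (t : ℝ) * ((2 : ℝ) ^ k * Real.exp (268 * ((n : ℝ) / d)) *
          Real.exp (-(9 / 100 * (7000 * ((Nat.size w : ℝ) + Nat.size t + 1)))) *
          (Real.exp (268 * ((n : ℝ) / d)) * Real.exp (80 * ((n : ℝ) / d))))
        ≤ Real.exp ((Nat.size t + 1 : ℕ) : ℝ) * Real.exp (-((Nat.size t + 1 : ℕ) : ℝ)) :=
          mul_le_mul h1 hB (by positivity) (Real.exp_pos _).le
      _ = 1 := by rw [← Real.exp_add, add_neg_cancel, Real.exp_zero]

end Pool.Agent.BisRu
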