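import Pool.Agent.BisRu.Targets
import Pool.Agent.BisRt.P_DBL

/-!
# Many pairs of vertices with common neighbours (U_OVL)
-/

set_option autoImplicit false

namespace Pool.Agent.BisRu

open Finset Pool.Agent.PT Pool.Agent.BisTh Pool.Agent.BisRg Pool.Agent.BisRt

namespace OVL_

/-- Most neighbours of a vertex with more than `d / 5` neighbours and small inner cost have more
than `d / 5` neighbours themselves. -/
theorem good (h_REG : U_REG) (adj : ℕ → ℕ → Bool) (n d s g : ℕ) (hR : NReg adj n d s)
    (hd : 1 ≤ d) (X Y : Finset ℕ) (hX : X ⊆ range n) (hY : Y ⊆ range n) (v : ℕ)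
    (hv : d < 5 * (nb adj Y v).card) (hinc : inc adj n X Y v ≤ 10 * g * d) :
    2 * d < 10 * ((nb adj Y v).filter fun j => d < 5 * (nb (tr adj) X j).card).card + 125 * g := by
  obtain ⟨hRt, -, -⟩ := h_REG adj n d s hR
  obtain ⟨-, hsum, -⟩ := h_REG (tr adj) n d s hRt
  set N := nb adj Y v with hN
  have hsplit := Finset.card_filter_add_card_filter_not (s := N)
    (p := fun j => d < 5 * (nb (tr adj) X j).card)
  set G := N.filter fun j => d < 5 * (nb (tr adj) X j).card with hG
  set L := N.filter fun j => ¬ d < 5 * (nb (tr adj) X j).card with hL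
  have h1 : ∀ j ∈ L, 4 * d ≤ 5 * (nb (tr adj) (range n \ X) j).card := by
    intro j hj
    rw [hL, mem_filter] at hj
    have hjY : j ∈ Y := by
      have := hj.1
      rw [hN, nb, mem_filter] at this
      exact this.1
    have hjn : j < n := mem_range.1 (hY hjY)
    have := (hsum X hX j hjn).1
    omega
  have h2 : L.card * (4 * d) ≤ 5 * inc adj n X Y v := by
    calc L.card * (4 * d) = ∑ _j ∈ L, 4 * d := by rw [sum_const, smul_eq_mul]
      _ ≤ ∑ j ∈ L, 5 * (nb (tr adj) (range n \ X) j).card := sum_le_sum h1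
      _ ≤ ∑ j ∈ N, 5 * (nb (tr adj) (range n \ X) j).card :=
          sum_le_sum_of_subset (filter_subset _ _)
      _ = 5 * inc adj n X Y v := by rw [← mul_sum]; rfl
  have h3 : (4 * L.card) * d ≤ (50 * g) * d := by
    calc (4 * L.card) * d = L.card * (4 * d) := by ring
      _ ≤ 5 * inc adj n X Y v := h2
      _ ≤ 5 * (10 * g * d) := Nat.mul_le_mul_left _ hinc
      _ = (50 * g) * d := by ring
  have h4 : 4 * L.card ≤ 50 * g := Nat.le_of_mul_le_mul_right h3 hd
  omega

end OVL_

/-- U_OVL. -/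
theorem u_OVL (h_REG : U_REG) : U_OVL := by
  intro adj n d s g hR hd X Y hX hY u hu hinc hmax
  have hd1 : 1 ≤ d := by omega
  obtain ⟨hRt, -, -⟩ := h_REG adj n d s hR
  have huX : u ∈ X ∧ d < 5 * (nb adj Y u).card := by
    rw [hi, mem_filter] at hu
    exact hu
  have hA := OVL_.good h_REG adj n d s g hR hd1 X Y hX hY u huX.2 hinc
  set N := nb adj Y u with hN
  set H := (hi adj d X Y).erase u with hH
  set G := N.filter fun j => d < 5 * (nb (tr adj) X j).card with hG
  have hGd : d ≤ 10 * G.card := by omega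
  -- every good neighbour has many neighbours in `H`
  have hB : ∀ j ∈ G, d ≤ 10 * (nb (tr adj) H j).card := by
    intro j hj
    rw [hG, mem_filter] at hj
    have hjY : j ∈ Y := by
      have := hj.1
      rw [hN, nb, mem_filter] at this
      exact this.1
    have hjhi : j ∈ hi (tr adj) d Y X := by
      rw [hi, mem_filter]
      exact ⟨hjY, hj.2⟩
    have h1 := OVL_.good h_REG (tr adj) n d s g hRt hd1 Y X hY hX j hj.2
      ((hmax j hjhi).trans hinc)
    have h2 : (((nb (tr adj) X j).filter fun i => d < 5 * (nb (tr (tr adj)) Y i).card).erase u)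
        ⊆ nb (tr adj) H j := by
      intro i hi'
      rw [mem_erase, mem_filter, nb, mem_filter] at hi'
      rw [nb, mem_filter, hH, mem_erase, hi, mem_filter]
      exact ⟨⟨hi'.1, hi'.2.1.1, hi'.2.2⟩, hi'.2.1.2⟩
    have h3 := card_le_card h2
    have h4 := pred_card_le_card_erase
      (s := (nb (tr adj) X j).filter fun i => d < 5 * (nb (tr (tr adj)) Y i).card) (a := u)
    omega
  have hC : ∑ i ∈ H, (ov adj Y u i).card = ∑ j ∈ N, (nb (tr adj) H j).card := by
    rw [← (Pool.Agent.BisRt.p_DBL adj).1 H N]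
    refine sum_congr rfl fun i _ => ?_
    congr 1
    ext j
    simp only [ov, nb, mem_inter, mem_filter, hN]
    tauto
  have hD : G.card * d ≤ 10 * ∑ i ∈ H, (ov adj Y u i).card := by
    rw [hC]
    calc G.card * d = ∑ _j ∈ G, d := by rw [sum_const, smul_eq_mul]
      _ ≤ ∑ j ∈ G, 10 * (nb (tr adj) H j).card := sum_le_sum hB
      _ ≤ ∑ j ∈ N, 10 * (nb (tr adj) H j).card := sum_le_sum_of_subset (filter_subset _ _)
      _ = 10 * ∑ j ∈ N, (nb (tr adj) H j).card := by rw [← mul_sum]
  calc d * d ≤ (10 * G.card) * d := Nat.mul_le_mul_right _ hGd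
    _ = 10 * (G.card * d) := by ring
    _ ≤ 10 * (10 * ∑ i ∈ H, (ov adj Y u i).card) := Nat.mul_le_mul_left _ hD
    _ = 100 * ∑ i ∈ H, (ov adj Y u i).card := by ring

end Pool.Agent.BisRu
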