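import Pool.Agent.BisRu.Targets

/-!
# ST8: the machine for nearly regular graphs (MP_29585b_lc)
-/

set_option autoImplicit false

namespace Pool.Agent.BisRu

open Finset Pool.Agent.PT Pool.Agent.BisTh Pool.Agent.BisRg Pool.Agent.BisRt

namespace ST8_

/-- The value of the algorithm on an instance. -/
def algYG (x : Bip × ℕ × ℕ) : ℕ :=
  algY (List.replicate x.2.2 true) (List.replicate x.2.1 true) (List.replicate x.1.b true)
    (rowsOf x.1)

theorem tm_algY (h_PTX : U_PTX) :
    Nonempty (Turing.TM2ComputableInPolyTime encInput₂ encNat algYG) := by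
  have hC : Fact Core := ⟨core⟩
  have h1 : PolyF (fun w : List Letter =>
      encNat (algY (ST1_.parse₂ w).1 (ST1_.parse₂ w).2.1 (ST1_.parse₂ w).2.2.1
        (ST1_.parse₂ w).2.2.2)) := by
    have h2 := (h_PTX hC).comp (ST1_.parse₂_pt (hC := hC))
    exact h2.bits
  refine tm_of_polyF h1 encInput₂ encNat _ fun x => ?_
  rw [ST1_.parse₂_encInput₂]
  rfl

end ST8_

open ST8_

theorem u_ST8 (h_PTX : U_PTX) (h_AYL : U_AYL) : U_ST8 := by
  refine ⟨algYG, tm_algY h_PTX, fun G t w => ?_⟩
  obtain ⟨h1, h2⟩ := h_AYL G (List.replicate w true) (List.replicate t true)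
  refine ⟨h1, fun d s k hd hG hk hw => ?_⟩
  have h3 := h2 d s k hd hG hk (by rw [List.length_replicate]; exact hw)
  rw [List.length_replicate] at h3
  exact h3

end Pool.Agent.BisRu
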