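import Pool.Agent.BisRu.Targets

/-!
# ST9: polynomial time for nearly regular graphs with `(s + 1) n ≤ q d log n` (helper23)
-/

set_option autoImplicit false

namespace Pool.Agent.BisRu

open Finset Pool.Agent.PT Pool.Agent.BisTh Pool.Agent.BisRg Pool.Agent.BisRt

namespace ST9_

/-- The width. -/
def wid (k : ℕ) (B : Un) (X : List (List Bool)) : Un := pw k (B ++ un X ++ [true])

/-- The value on a graph. -/
def valG (q : ℕ) (x : Bip × ℕ) : ℕ :=
  algY (wid q (List.replicate x.1.b true) (rowsOf x.1)) (List.replicate x.2 true)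
    (List.replicate x.1.b true) (rowsOf x.1)

theorem tm (h_PTX : U_PTX) (q : ℕ) :
    Nonempty (Turing.TM2ComputableInPolyTime encInput encNat (valG q)) := by
  have hC : Fact Core := ⟨core⟩
  have h3 : PolyF (fun x : In => wid q x.2.1 x.2.2) := by
    unfold wid
    exact pw_pt q (by fun_prop)
  have h1 : PolyF (fun x : In => ((wid q x.2.1 x.2.2, x.1, x.2.1, x.2.2) : In₂)) := by
    fun_prop
  have h2 : PolyF (fun w : List Letter => encNat (algY
      (wid q (parse w).2.1 (parse w).2.2) (parse w).1 (parse w).2.1 (parse w).2.2)) :=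
    (((h_PTX hC).comp h1).comp (parse_pt (hC := hC))).bits
  refine tm_of_polyF h2 encInput encNat _ fun x => ?_
  rw [parse_encInput]
  rfl

theorem wid_length (k : ℕ) (B : Un) (X : List (List Bool)) :
    (wid k B X).length = (B.length + X.length + 1) ^ k := by
  unfold wid
  rw [pw_length, List.length_append, List.length_append, un_length]
  rfl

end ST9_

open ST9_ in
/-- Polynomial time for nearly regular graphs. -/
theorem u_ST9 (h_PTX : U_PTX) (h_AYL : U_AYL) : U_ST9 := by
  intro q
  refine ⟨valG q, tm h_PTX q, fun G t d s hreg hn => ?_⟩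
  obtain ⟨h1, h2⟩ := h_AYL G (wid q (List.replicate G.b true) (rowsOf G)) (List.replicate t true)
  refine ⟨h1, ?_⟩
  have hab : G.a = G.b := hreg.1
  have hXl : (rowsOf G).length = G.a := by simp [rowsOf]
  have hw : 2 ^ (q * Nat.log 2 G.a) ≤
      (wid q (List.replicate G.b true) (rowsOf G)).length := by
    rw [wid_length, List.length_replicate, hXl, ← hab]
    have h3 : 2 ^ Nat.log 2 G.a ≤ G.a + G.a + 1 := by
      rcases Nat.eq_zero_or_pos G.a with ha | ha
      · rw [ha]
        simp
      · have := Nat.pow_log_le_self 2 (x := G.a) (by omega)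
        omega
    rw [mul_comm, pow_mul]
    exact Nat.pow_le_pow_left h3 _
  have h4 : ∀ d' s' : ℕ, 1 ≤ d' → NearRegular G d' s' →
      (s' + 1) * G.a ≤ d' * (q * Nat.log 2 G.a) →
      t * (G.count - valG q (G, t)) ≤ G.count := by
    intro d' s' hd hr hs
    have h5 := h2 d' s' (q * Nat.log 2 G.a) hd hr hs hw
    rw [List.length_replicate] at h5
    exact h5
  rcases Nat.eq_zero_or_pos d with hd | hd
  · have ha : G.a = 0 := by
      rw [hd, zero_mul, mul_zero] at hn
      rcases Nat.mul_eq_zero.1 (Nat.le_zero.1 hn) with h | h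
      · omega
      · exact h
    have hb : G.b = 0 := by omega
    refine h4 1 0 le_rfl ⟨hab, fun i => ?_, fun j => ?_⟩ ?_
    · exact absurd i.2 (by omega)
    · exact absurd j.2 (by omega)
    · rw [ha]
      simp
  · refine h4 d s hd hreg (hn.trans (le_of_eq ?_))
    ring

end Pool.Agent.BisRu
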