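import Pool.Agent.BisRu.Defs

/-!
# The reduction to nearly regular graphs with explicit degree spread (MP_29585b_lc)
-/

set_option autoImplicit false

namespace Pool.Agent.BisRu

open Pool.Agent.PT Pool.Agent.BisTh Pool.Agent.BisRg Pool.Agent.BisRg.ST3_

/-- `Statement3` with `m = a + b + s + 2`. -/
theorem statement3x : ∀ c : ℕ, 1 ≤ c → ∃ ρ : Bip × ℕ → Bip × ℕ,
    Nonempty (Turing.TM2ComputableInPolyTime encInput encInput ρ) ∧
    ∀ (H : Bip) (s : ℕ), (∃ d : ℕ, NearRegular (ρ (H, s)).1 d (H.a + H.b + s + 2) ∧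
        (ρ (H, s)).1.a = 2 * d + (H.a + H.b + s + 2)) ∧
      (H.a + H.b + s + 2) ^ c ≤ (ρ (H, s)).1.a ∧
      2 ^ (ρ (H, s)).2 * H.count ≤ (ρ (H, s)).1.count ∧
      2 ^ s * ((ρ (H, s)).1.count - 2 ^ (ρ (H, s)).2 * H.count) ≤ 2 ^ (ρ (H, s)).2 := by
  have : Fact Core := ⟨core⟩
  intro c _
  refine ⟨rhoN c, tm_rhoN c, fun H s => ?_⟩
  have hX' : ∀ u ∈ rowsOf H, u.length = (List.replicate H.b true).length := by
    rw [List.length_replicate]
    exact rowsOf_length H
  obtain ⟨h2, h3, h4⟩ :=
    p_DEG c (List.replicate s true) (List.replicate H.b true) (rowsOf H) hX'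
  have h1 := p_CGN p_CRN c (List.replicate s true) (List.replicate H.b true) (rowsOf H) hX'
  rw [List.length_replicate, List.length_replicate, ← count_eq] at h1
  have hm : (mN (List.replicate s true) (List.replicate H.b true) (rowsOf H)).length =
      H.a + H.b + s + 2 := by
    unfold mN rowsOf
    simp only [List.length_append, List.length_replicate, un_length, List.length_map,
      List.length_finRange, List.length_cons, List.length_nil]
    omega
  rw [hm] at h2 h3 h4
  exact ⟨⟨_, h2, h3⟩, h4, h1⟩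

end Pool.Agent.BisRu
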