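import Pool.Agent.BisRh.Main

/-!
# The reduction to regular graphs with padding (MP_29585b_lc)
-/

set_option autoImplicit false

namespace Pool.Agent.BisRu

open Pool.Agent.PT Pool.Agent.BisTh Pool.Agent.BisRg Pool.Agent.BisRh Pool.Agent.BisRh.ST4_

/-- `Statement4` with the stronger lower bound `(2 * a + b + 3 + r) ^ c ≤ n`. -/
theorem statement4x : ∀ c : ℕ, 1 ≤ c → ∃ ρ : Bip × ℕ → Bip,
    Nonempty (Turing.TM2ComputableInPolyTime encInput encBip ρ) ∧
    ∀ (H : Bip) (r : ℕ), (∃ d : ℕ, NearRegular (ρ (H, r)) d 0 ∧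
        (ρ (H, r)).a = (2 * H.a + H.b + 3) * d) ∧
      (2 * H.a + H.b + 3 + r) ^ c ≤ (ρ (H, r)).a ∧
      2 ^ r * ((ρ (H, r)).count - 2 ^ (ρ (H, r)).a * (H.count + 2 ^ H.a + 1)) ≤
        2 ^ (ρ (H, r)).a ∧
      2 ^ r * (2 ^ (ρ (H, r)).a * (H.count + 2 ^ H.a + 1) - (ρ (H, r)).count) ≤
        2 ^ (ρ (H, r)).a := by
  have : Fact Core := ⟨core⟩
  intro c hc
  refine ⟨rho c, tm_rho p_RPT p_CPT c, fun H s => ?_⟩
  have hX' : ∀ u ∈ rowsOf H, u.length = (List.replicate H.b true).length := by
    rw [List.length_replicate]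
    exact rowsOf_length H
  have hXl : (rowsOf H).length = H.a := by simp [rowsOf]
  obtain ⟨M, hM⟩ : ∃ M : Un, M = mH c (List.replicate s true) (List.replicate H.b true)
    (rowsOf H) := ⟨_, rfl⟩
  obtain ⟨R, hR⟩ : ∃ R : List (List Bool),
    R = cst true (List.replicate H.b true) :: rowsOf H := ⟨_, rfl⟩
  have hρ : rho c (H, s) = gR M (List.replicate H.b true) R := by
    rw [hM, hR]
    rfl
  have hRl : R.length = H.a + 1 := by
    rw [hR, List.length_cons, hXl]
  have hR' : ∀ u ∈ R, u.length = (List.replicate H.b true).length := by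
    intro u hu
    rw [hR, List.mem_cons] at hu
    rcases hu with rfl | hu
    · exact cst_length _ _
    · exact hX' u hu
  have hMc : (2 * H.a + H.b + 3 + s) ^ c ≤ M.length := by
    rw [hM]
    unfold mH
    rw [pw_length]
    refine Nat.pow_le_pow_left ?_ c
    rw [rep_length]
    simp only [List.length_append, un_length, hXl, List.length_replicate, List.length_cons,
      List.length_nil]
    omega
  have hMl : 1 ≤ M.length := le_trans (Nat.one_le_pow _ _ (by omega)) hMc
  have h1 := tREG M (List.replicate H.b true) R hR' (by omega) hMl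
  have h2 := tCNT c (List.replicate s true) (List.replicate H.b true) (rowsOf H) hc hX' _ rfl
  rw [← hM, ← hR, List.length_replicate, List.length_replicate, ← count_eq, hXl] at h2
  rw [hρ]
  refine ⟨⟨_, h1.1, ?_⟩, le_trans hMc ?_, h2.1, h2.2.1⟩
  · rw [h1.2, hRl, List.length_replicate]
    congr 1
    omega
  · rw [h1.2]
    have e1 : 1 ≤ R.length * (((List.replicate H.b true).length + R.length)) :=
      Nat.mul_pos (by omega) (by omega)
    have e2 : M.length ≤ R.length * (((List.replicate H.b true).length + R.length) * M.length) := by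
      rw [← mul_assoc]
      exact Nat.le_mul_of_pos_left _ e1
    have e3 : 1 ≤ 2 * R.length + (List.replicate H.b true).length + 1 := by omega
    calc M.length ≤ 2 * (R.length * (((List.replicate H.b true).length + R.length) * M.length)) := by
          omega
      _ ≤ _ := Nat.le_mul_of_pos_left _ e3

end Pool.Agent.BisRu
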