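import Pool.Agent.BisRu.P_REG
import Pool.Agent.BisRu.P_DBL
import Pool.Agent.BisRu.P_INN
import Pool.Agent.BisRu.P_FFF
import Pool.Agent.BisRu.P_DPO
import Pool.Agent.BisRu.P_DPI
import Pool.Agent.BisRu.P_OVL
import Pool.Agent.BisRu.P_GAI
import Pool.Agent.BisRu.P_STP
import Pool.Agent.BisRu.P_WKD
import Pool.Agent.BisRu.P_WRT
import Pool.Agent.BisRu.P_LFB
import Pool.Agent.BisRu.P_LFE
import Pool.Agent.BisRu.P_CBD
import Pool.Agent.BisRu.P_STW
import Pool.Agent.BisRu.P_RND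
import Pool.Agent.BisRu.P_NUM
import Pool.Agent.BisRu.P_ERR
import Pool.Agent.BisRu.P_ALT
import Pool.Agent.BisRu.P_GRA
import Pool.Agent.BisRu.P_BRU
import Pool.Agent.BisRu.P_PTA
import Pool.Agent.BisRu.P_PTX
import Pool.Agent.BisRu.P_AYL
import Pool.Agent.BisRu.P_ST8
import Pool.Agent.BisRu.P_ST9
import Pool.Agent.BisRu.Red
import Pool.Agent.BisRu.Red4

/-!
# Assembly
-/

set_option autoImplicit false

namespace Pool.Agent.BisRu

open Pool.Agent.BisTh Pool.Agent.BisRg Pool.Agent.BisRt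

theorem tDBL : U_DBL := u_DBL
theorem tINN : U_INN := u_INN u_REG
theorem tDPO : U_DPO := u_DPO u_REG u_FFF
theorem tDPI : U_DPI := u_DPI tINN u_FFF
theorem tOVL : U_OVL := u_OVL u_REG
theorem tGAI : U_GAI := u_GAI u_REG u_FFF
theorem tSTP : U_STP := u_STP tDPO tDPI tOVL tGAI u_FFF
theorem tWKD : U_WKD := u_WKD tSTP u_REG tDBL
theorem tLFB : U_LFB := u_LFB tDBL
theorem tLFE : U_LFE := u_LFE tDBL
theorem tCBD : U_CBD := u_CBD tWKD tLFB u_WRT
theorem tSTW : U_STW := u_STW tWKD tCBD u_WRT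
theorem tRND : U_RND := u_RND tSTW u_WRT
theorem tERR : U_ERR := u_ERR tRND tLFE u_NUM
theorem tALT : U_ALT := u_ALT tERR
theorem tPTX : U_PTX := u_PTX u_PTA
theorem tAYL : U_AYL := u_AYL tALT u_GRA u_BRU

theorem statement8 : Statement8 := u_ST8 tPTX tAYL

theorem statement9 : Statement9 := u_ST9 tPTX tAYL

end Pool.Agent.BisRu
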