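import Pool.Agent.BisRu.Targets

/-!
# Elementary facts on nearly regular relations (REG)
-/

set_option autoImplicit false

namespace Pool.Agent.BisRu

open Finset Pool.Agent.PT Pool.Agent.BisTh Pool.Agent.BisRg Pool.Agent.BisRt

namespace REG_

theorem reg_tr {adj : ℕ → ℕ → Bool} {n d s : ℕ} (h : NReg adj n d s) : NReg (tr adj) n d s :=
  ⟨h.2, h.1⟩

theorem split {adj : ℕ → ℕ → Bool} {n d s : ℕ} (h : NReg adj n d s) {Y : Finset ℕ}
    (hY : Y ⊆ range n) {i : ℕ} (hi : i < n) :
    d ≤ (nb adj Y i).card + (nb adj (range n \ Y) i).card ∧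
      (nb adj Y i).card + (nb adj (range n \ Y) i).card ≤ d + s := by
  have h1 := h.1 i hi
  have h2 : (range n).filter (fun j => adj i j = true) =
      nb adj Y i ∪ nb adj (range n \ Y) i := by
    unfold nb
    rw [← filter_union, union_sdiff_of_subset hY]
  have h3 : Disjoint (nb adj Y i) (nb adj (range n \ Y) i) := by
    unfold nb
    exact disjoint_filter_filter disjoint_sdiff
  rw [h2, card_union_of_disjoint h3] at h1
  exact h1

end REG_

open REG_ in
/-- Elementary facts on nearly regular relations. -/
theorem u_REG : U_REG := by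
  intro adj n d s h
  refine ⟨reg_tr h, fun Y hY i hi => split h hY hi, fun Y hY i hi => ⟨?_, ?_⟩⟩
  · have := split h hY hi
    omega
  · have := split (reg_tr h) hY hi
    omega

end Pool.Agent.BisRu
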