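import Pool.Agent.BisRu.Targets
import Pool.Agent.BisRt.P_BST
import Pool.Agent.BisRt.P_KID
import Pool.Agent.BisRt.P_CSK
import Pool.Agent.BisRt.P_LNK
import Pool.Agent.BisRt.P_STS

set_option autoImplicit false

/-!
# BisRu, target RND: all rounds of the branching
-/

namespace Pool.Agent.BisRu

open Finset Pool.Agent.PT Pool.Agent.BisTh Pool.Agent.BisRg Pool.Agent.BisRt

namespace RND_

theorem sum_flat (w : SI → ℝ) (f : SI → List SI) (L : List SI) :
    ((L.flatMap f).map w).sum = (L.map fun s => ((f s).map w).sum).sum := by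
  induction L with
  | nil => rfl
  | cons a L ih =>
    rw [List.flatMap_cons, List.map_append, List.sum_append, ih, List.map_cons, List.sum_cons]

theorem sum_mul (c : ℝ) (w : SI → ℝ) (L : List SI) :
    (L.map fun s => c * w s).sum = c * (L.map w).sum := by
  induction L with
  | nil => simp
  | cons a L ih => rw [List.map_cons, List.sum_cons, List.map_cons, List.sum_cons, ih]; ring

theorem sum_add (u w : SI → ℝ) (L : List SI) :
    (L.map fun s => u s + w s).sum = (L.map u).sum + (L.map w).sum := by
  induction L with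
  | nil => simp
  | cons a L ih =>
    rw [List.map_cons, List.sum_cons, List.map_cons, List.sum_cons, List.map_cons,
      List.sum_cons, ih]
    ring

theorem len_mul_le (w : SI → ℝ) (c : ℝ) (L : List SI) (h : ∀ s ∈ L, c ≤ w s) :
    (L.length : ℝ) * c ≤ (L.map w).sum := by
  induction L with
  | nil => simp
  | cons a L ih =>
    rw [List.map_cons, List.sum_cons, List.length_cons]
    have h1 := h a List.mem_cons_self
    have h2 := ih fun s hs => h s (List.mem_cons_of_mem _ hs)
    push_cast
    linarith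

theorem gr_one (g : ℕ) : 1 ≤ gr g := by
  unfold gr
  have := Real.exp_pos (-(g : ℝ))
  linarith

theorem Mu_nonneg (n c d g K : ℕ) : 0 ≤ Mu n c d g K := by
  unfold Mu
  have h1 : 0 ≤ gr g := le_trans zero_le_one (gr_one g)
  positivity

theorem low_step (h_BST : T_BST) {R : List (List Bool)} {n d K : ℕ} {s : SI} (hs : GoodS n s)
    (hl : Low R d s) : stepT d K R (List.range n) s = [s] := by
  have hc : cands d R (List.range n) s = [] := by
    by_contra h
    obtain ⟨h1, h2, -, -⟩ := (h_BST R n d s hs).2 h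
    rcases hb : (best (cands d R (List.range n) s)).1 with _ | _
    · have := (h1 hb).1
      rw [hl.1] at this
      exact absurd this (Finset.notMem_empty _)
    · have := (h2 hb).1
      rw [hl.2] at this
      exact absurd this (Finset.notMem_empty _)
  unfold stepT
  rw [hc]
  rfl

theorem low_nil (R : List (List Bool)) (d : ℕ) (s : SI) (h : s.1.length + s.2.length = 0) :
    Low R d s := by
  have h1 : s.1 = [] := List.length_eq_zero_iff.mp (by omega)
  have h2 : s.2 = [] := List.length_eq_zero_iff.mp (by omega)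
  constructor
  · rw [h1]
    rfl
  · rw [h2]
    rfl

/-- the invariant after `j` rounds -/
structure Inv (R : List (List Bool)) (n c d g K j : ℕ) (L : List SI) : Prop where
  good : ∀ s ∈ L, GoodS n s ∧ ed R (List.range n) s ≤ K ∧
    (Low R d s ∨ s.1.length + s.2.length + j ≤ 2 * n)
  wt : (L.map (WU R n d (3 / 5))).sum ≤ gr g ^ j * WU R n d (3 / 5) (root n)
  cnt : (cs R (root n) : ℝ) ≤ (L.map fun s => (cs R s : ℝ)).sum +
    Mu n c d g K * (gr g ^ j * WU R n d (3 / 5) (root n) - (L.map (WU R n d (3 / 5))).sum)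

theorem inv_step (h_STS : T_STS) (h_STW : U_STW) (h_BST : T_BST) {R : List (List Bool)}
    {n d σ c g K j : ℕ} (hR : NReg (aj R) n d σ) (hσ : σ ≤ d) (hc : σ * n ≤ d * c)
    (hg : 125 * g + 10 ≤ d) {L : List SI} (h : Inv R n c d g K j L) :
    Inv R n c d g K (j + 1) (L.flatMap (stepT d K R (List.range n))) := by
  have key1 : ((L.flatMap (stepT d K R (List.range n))).map (WU R n d (3 / 5))).sum ≤
      gr g * (L.map (WU R n d (3 / 5))).sum := by
    rw [sum_flat, ← sum_mul]
    refine List.sum_le_sum fun s hs => ?_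
    exact (h_STW R n d σ c g K hR hσ hc hg s (h.good s hs).1).1
  have key2 : (L.map fun s => (cs R s : ℝ)).sum +
      Mu n c d g K * ((L.flatMap (stepT d K R (List.range n))).map (WU R n d (3 / 5))).sum ≤
      ((L.flatMap (stepT d K R (List.range n))).map fun s => (cs R s : ℝ)).sum +
      Mu n c d g K * (gr g * (L.map (WU R n d (3 / 5))).sum) := by
    rw [sum_flat, sum_flat, ← sum_mul, ← sum_add, ← sum_mul, ← sum_mul, ← sum_add]
    refine List.sum_le_sum fun s hs => ?_
    exact (h_STW R n d σ c g K hR hσ hc hg s (h.good s hs).1).2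
  have hg1 := gr_one g
  have hM := Mu_nonneg n c d g K
  refine ⟨?_, ?_, ?_⟩
  · intro s' hs'
    obtain ⟨s, hs, hss⟩ := List.mem_flatMap.mp hs'
    obtain ⟨g1, g2, g3⟩ := h.good s hs
    obtain ⟨e1, e2, e3⟩ := (h_STS R n d K s g1).1 s' hss
    refine ⟨e1, e2 g2, ?_⟩
    rcases g3 with hl | hl
    · rw [low_step h_BST g1 hl, List.mem_singleton] at hss
      rw [hss]
      exact Or.inl hl
    · rcases e3 with e3 | e3
      · exact Or.inl e3
      · exact Or.inr (by omega)
  · refine key1.trans ?_
    rw [pow_succ, mul_comm (gr g ^ j) (gr g), mul_assoc]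
    exact mul_le_mul_of_nonneg_left h.wt (le_trans zero_le_one hg1)
  · have h1 := h.cnt
    have h2 := h.wt
    have h3 : 0 ≤ (gr g - 1) * (gr g ^ j * WU R n d (3 / 5) (root n) -
        (L.map (WU R n d (3 / 5))).sum) :=
      mul_nonneg (by linarith) (by linarith)
    have h4 := mul_nonneg hM h3
    have h5 : gr g ^ (j + 1) = gr g * gr g ^ j := by ring
    rw [h5]
    nlinarith [h1, h4, key2]

theorem inv_len (h_WRT : U_WRT) (h_LNK : T_LNK) {R : List (List Bool)}
    {n c d g K j : ℕ} (hg : 125 * g + 10 ≤ d) (P : Un)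
    (hP : gr g ^ (2 * n) * Real.exp (80 * ((n : ℝ) / d)) * Real.exp (3 / 5 * ((K : ℝ) / d)) ≤
      P.length) {L : List SI} (hj : j ≤ 2 * n) (h : Inv R n c d g K j L) :
    L.length ≤ P.length := by
  have hd : 1 ≤ d := by omega
  have hg1 := gr_one g
  have h1 : (L.length : ℝ) * Real.exp (-(3 / 5 * ((K : ℝ) / d))) ≤
      (L.map (WU R n d (3 / 5))).sum := by
    refine len_mul_le _ _ _ fun s hs => ?_
    obtain ⟨g1, g2, -⟩ := h.good s hs
    refine le_trans ?_ ((h_WRT R n d hd s).2.2.1 (3 / 5))
    have e1 := (h_LNK R n s g1).2.2.2.2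
    rw [e1] at g2
    have e2 : ((Ed (aj R) n s.1.toFinset s.2.toFinset : ℕ) : ℝ) ≤ K := by exact_mod_cast g2
    have e3 : ((Ed (aj R) n s.1.toFinset s.2.toFinset : ℕ) : ℝ) / d ≤ (K : ℝ) / d :=
      div_le_div_of_nonneg_right e2 (Nat.cast_nonneg d)
    exact Real.exp_le_exp.mpr (by linarith)
  have h2 : (L.map (WU R n d (3 / 5))).sum ≤
      gr g ^ (2 * n) * Real.exp (80 * ((n : ℝ) / d)) := by
    refine h.wt.trans ?_
    refine mul_le_mul (pow_le_pow_right₀ hg1 hj) (h_WRT R n d hd (root n)).2.2.2
      (h_WRT R n d hd (root n)).1.le (by positivity)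
  have h3 : (L.length : ℝ) ≤ P.length := by
    have e1 : (L.length : ℝ) = ((L.length : ℝ) * Real.exp (-(3 / 5 * ((K : ℝ) / d)))) *
        Real.exp (3 / 5 * ((K : ℝ) / d)) := by
      rw [mul_assoc, ← Real.exp_add, neg_add_cancel, Real.exp_zero, mul_one]
    rw [e1]
    exact (mul_le_mul_of_nonneg_right (h1.trans h2) (Real.exp_pos _).le).trans hP
  exact_mod_cast h3

theorem inv_root (h_LNK : T_LNK) (R : List (List Bool)) (n c d g K : ℕ) :
    Inv R n c d g K 0 [root n] := by
  have hgood : GoodS n (root n) :=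
    ⟨List.nodup_range, List.nodup_range, fun i hi => List.mem_range.mp hi,
      fun i hi => List.mem_range.mp hi⟩
  refine ⟨?_, ?_, ?_⟩
  · intro s hs
    rw [List.mem_singleton] at hs
    subst hs
    refine ⟨hgood, ?_, Or.inr ?_⟩
    · rw [(h_LNK R n (root n) hgood).2.2.2.2]
      have e : (root n).1.toFinset = range n := by
        ext i
        show i ∈ (List.range n).toFinset ↔ i ∈ range n
        rw [List.mem_toFinset, List.mem_range, Finset.mem_range]
      unfold Ed
      rw [e, Finset.sdiff_self, Finset.sum_empty]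
      exact Nat.zero_le _
    · show (List.range n).length + (List.range n).length + 0 ≤ 2 * n
      rw [List.length_range]
      omega
  · simp
  · simp

theorem inv_fold (h_STS : T_STS) (h_STW : U_STW) (h_BST : T_BST) (h_WRT : U_WRT)
    (h_LNK : T_LNK) {R : List (List Bool)} {n d σ c g K : ℕ} (hR : NReg (aj R) n d σ)
    (hσ : σ ≤ d) (hc : σ * n ≤ d * c) (hg : 125 * g + 10 ≤ d) (P : Un)
    (hP : gr g ^ (2 * n) * Real.exp (80 * ((n : ℝ) / d)) * Real.exp (3 / 5 * ((K : ℝ) / d)) ≤
      P.length) (V : List ℕ) : ∀ (j : ℕ) (L : List SI), j + V.length ≤ 2 * n →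
      Inv R n c d g K j L → Inv R n c d g K (j + V.length)
        (V.foldl (fun L _ => cond (decide (L.length ≤ P.length))
          (L.flatMap (stepT d K R (List.range n))) []) L) := by
  induction V with
  | nil =>
    intro j L _ h
    exact h
  | cons v V ih =>
    intro j L hj h
    rw [List.foldl_cons, List.length_cons]
    rw [List.length_cons] at hj
    have hlen := inv_len h_WRT h_LNK hg P hP (by omega) h
    rw [decide_eq_true hlen, cond_true]
    have h1 := ih (j + 1) _ (by omega) (inv_step h_STS h_STW h_BST hR hσ hc hg h)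
    have e : j + 1 + V.length = j + (V.length + 1) := by omega
    rw [e] at h1
    exact h1

end RND_

open RND_ in
theorem u_RND (h_STW : U_STW) (h_WRT : U_WRT) : U_RND := by
  intro R n d σ c g K P hR hσ hc hg hP
  have h_LNK : T_LNK := p_LNK
  have h_BST : T_BST := p_BST p_LNK
  have h_STS : T_STS := p_STS h_BST p_KID p_CSK
  have hd : 1 ≤ d := by omega
  have hlen : (List.range n ++ List.range n).length = 2 * n := by
    rw [List.length_append, List.length_range]
    omega
  have hI : Inv R n c d g K (2 * n) (rounds d K P R (List.range n) [root n]) := by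
    have h1 := inv_fold h_STS h_STW h_BST h_WRT h_LNK hR hσ hc hg P hP
      (List.range n ++ List.range n) 0 [root n] (by omega) (inv_root h_LNK R n c d g K)
    rw [hlen, zero_add] at h1
    exact h1
  have hl := inv_len h_WRT h_LNK hg P hP le_rfl hI
  refine ⟨?_, hl, ?_⟩
  · intro s hs
    obtain ⟨g1, -, g3⟩ := hI.good s hs
    refine ⟨g1, ?_⟩
    rcases g3 with g3 | g3
    · exact g3
    · exact low_nil R d s (by omega)
  · refine hI.cnt.trans ?_
    have hM := Mu_nonneg n c d g K
    have hg1 := gr_one g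
    have h1 : 0 ≤ ((rounds d K P R (List.range n) [root n]).map (WU R n d (3 / 5))).sum := by
      refine List.sum_nonneg fun x hx => ?_
      obtain ⟨s, -, rfl⟩ := List.mem_map.mp hx
      exact (h_WRT R n d hd s).1.le
    have h2 : gr g ^ (2 * n) * WU R n d (3 / 5) (root n) ≤
        gr g ^ (2 * n) * Real.exp (80 * ((n : ℝ) / d)) :=
      mul_le_mul_of_nonneg_left (h_WRT R n d hd (root n)).2.2.2 (by positivity)
    have h3 := mul_le_mul_of_nonneg_left (show gr g ^ (2 * n) * WU R n d (3 / 5) (root n) -
        ((rounds d K P R (List.range n) [root n]).map (WU R n d (3 / 5))).sum ≤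
        gr g ^ (2 * n) * Real.exp (80 * ((n : ℝ) / d)) by linarith) hM
    linarith

end Pool.Agent.BisRu
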