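import Pool.Agent.BisRu.Defs

/-!
# Targets of the project BisRu (MP_29585b_lc)

All targets are variants of targets of `Pool.Agent.BisRt` (copy the file `BisRt/P_XXX.lean` of the
same name and adapt it) with degrees between `d` and `d + s`, `s ≤ d`, in place of exactly `d`.
Notation: `h(i)` is the number of neighbours of `i ∈ X` in `Y` (for `j ∈ Y`: in `X`), `r(i)` the
number of its neighbours outside `Y` (outside `X`), so `d ≤ h + r ≤ d + s`; `N = nb adj Y u`.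
-/

set_option autoImplicit false

namespace Pool.Agent.BisRu

open Finset Pool.Agent.PT Pool.Agent.BisTh Pool.Agent.BisRg Pool.Agent.BisRt

/-- The weight of a state. -/
noncomputable def WU (R : List (List Bool)) (n d : ℕ) (θ : ℝ) (s : SI) : ℝ :=
  Wu (aj R) n d θ s.1.toFinset s.2.toFinset

/-- The factor for dropped states. -/
noncomputable def Mu (n c d g K : ℕ) : ℝ :=
  2 ^ (n + c) * gr g ^ (2 * n) * Real.exp (-(9 / 100 * ((K : ℝ) / d)))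

/-! ### Sets of vertices -/

/-- REG (variant of BisRt REG). -/
def U_REG : Prop :=
  ∀ (adj : ℕ → ℕ → Bool) (n d s : ℕ), NReg adj n d s → NReg (tr adj) n d s ∧
    (∀ Y : Finset ℕ, Y ⊆ range n → ∀ i < n,
      d ≤ (nb adj Y i).card + (nb adj (range n \ Y) i).card ∧
      (nb adj Y i).card + (nb adj (range n \ Y) i).card ≤ d + s) ∧
    ∀ Y : Finset ℕ, Y ⊆ range n → ∀ i < n,
      (nb adj Y i).card ≤ d + s ∧ (nb (tr adj) Y i).card ≤ d + s

/-- DBL. `d |X| ≤ ∑_{i ∈ X} (h(i) + r(i))`, and `∑_{i ∈ X} r(i) = ∑_{j ∉ Y} |N(j) ∩ X| ≤`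
`∑_{j ∉ Y} (d + s - |N(j) \ X|) = (d + s) (n - |Y|) - Ed ≤ d (n - |Y|) + s n - Ed` (T_DBL (1), (2) of
BisRt hold for all relations). Second part: symmetry as in T_DBL (4). -/
def U_DBL : Prop :=
  (∀ (adj : ℕ → ℕ → Bool) (n d s : ℕ), NReg adj n d s → ∀ X Y : Finset ℕ, X ⊆ range n →
    Y ⊆ range n → d * (X.card + Y.card) + Ed adj n X Y ≤
      d * n + s * n + ∑ i ∈ X, (nb adj Y i).card) ∧
  ∀ (adj : ℕ → ℕ → Bool) (n d : ℕ) (θ : ℝ) (X Y : Finset ℕ),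
    Wu adj n d θ X Y = Wu (tr adj) n d θ Y X

/-- INN (variant of BisRt INN). (1): the number grows by `h(u) + r(u) + inc u`,
`h(u) + r(u) ≥ d`. (4): `|nb (tr adj) X j| ≤ d + s`. -/
def U_INN : Prop :=
  ∀ (adj : ℕ → ℕ → Bool) (n d s : ℕ), NReg adj n d s → ∀ X Y : Finset ℕ, X ⊆ range n →
    Y ⊆ range n → ∀ u ∈ X,
    Ed adj n X Y + d + inc adj n X Y u ≤ Ed adj n (X.erase u) (Y \ nb adj Y u) ∧
    (∀ i : ℕ, inc adj n (X.erase u) (Y \ nb adj Y u) i +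
      ∑ j ∈ ov adj Y u i, (nb (tr adj) (range n \ X) j).card = inc adj n X Y i) ∧
    (∀ j ∈ Y \ nb adj Y u,
      inc (tr adj) n Y X j ≤ inc (tr adj) n (Y \ nb adj Y u) (X.erase u) j) ∧
    ∑ i ∈ X, ∑ j ∈ ov adj Y u i, (nb (tr adj) (range n \ X) j).card ≤
      (d + s) * inc adj n X Y u

/-- FFF. From T_FFF of BisRt (`Fu = Ff / 2`); (4): with `z = y / 10 ≤ 1 / 5`,
`1 - e^(-z) ≥ z / (1 + z) ≥ z / 1.2`, so the difference is at least `(5/2) (y/12) e^(-x/10)`. -/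
def U_FFF : Prop :=
  (∀ x : ℝ, 0 < Fu x) ∧ (∀ x y : ℝ, x ≤ y → Fu y ≤ Fu x) ∧
  (∀ x y : ℝ, 0 ≤ x → x ≤ y → Fu x - Fu y ≤ (y - x) / 4) ∧
  (∀ x y : ℝ, 0 ≤ y → y ≤ 2 → 1 / 5 * y * Real.exp (-(x / 10)) ≤ Fu x - Fu (x + y)) ∧
  Real.exp (-7) ≤ 1 / 1000

/-- DPO (variant of BisRt DPO; T_OUT of BisRt holds for all relations). The sum over the other side
increases by at most `|N| * (r / d) / 4 ≤ 2 d (r / d) / 4 = r / 2`, `|N| ≤ d + s ≤ 2 d`. -/
def U_DPO : Prop :=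
  ∀ (adj : ℕ → ℕ → Bool) (n d s : ℕ), NReg adj n d s → 1 ≤ d → s ≤ d → ∀ θ : ℝ, 3 / 5 ≤ θ →
    ∀ X Y : Finset ℕ, X ⊆ range n → Y ⊆ range n → ∀ u ∈ X,
    Pu adj n d θ (X.erase u) Y + (∑ i ∈ (hi adj d X Y).erase u,
      (Fu ((inc adj n X Y i : ℝ) / d) -
        Fu ((inc adj n X Y i : ℝ) / d + ((ov adj Y u i).card : ℝ) / d))) / d ≤
      Pu adj n d θ X Y

/-- DPI (variant of BisRt DPI). `Ed / d` grows by at least `1 + c`; the sum of `Fu` over the first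
side increases by at most `(1/4) ∑ s(i) / d ≤ (1/4) (d + s) inc u / d ≤ inc u / 2`. -/
def U_DPI : Prop :=
  ∀ (adj : ℕ → ℕ → Bool) (n d s : ℕ), NReg adj n d s → 1 ≤ d → s ≤ d → ∀ θ : ℝ, 3 / 5 ≤ θ →
    ∀ X Y : Finset ℕ, X ⊆ range n → Y ⊆ range n → ∀ u ∈ hi adj d X Y,
    Pu adj n d θ (X.erase u) (Y \ nb adj Y u) + 7 + (inc adj n X Y u : ℝ) / d / 10 ≤
      Pu adj n d θ X Y

/-- OVL (variant of BisRt OVL, the proof only uses that all degrees are at least `d`: a low `j`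
satisfies `5 r(j) ≥ 4 d`). -/
def U_OVL : Prop :=
  ∀ (adj : ℕ → ℕ → Bool) (n d s g : ℕ), NReg adj n d s → 125 * g + 10 ≤ d →
    ∀ X Y : Finset ℕ, X ⊆ range n → Y ⊆ range n → ∀ u ∈ hi adj d X Y,
    inc adj n X Y u ≤ 10 * g * d →
    (∀ j ∈ hi (tr adj) d Y X, inc (tr adj) n Y X j ≤ inc adj n X Y u) →
    d * d ≤ 100 * ∑ i ∈ (hi adj d X Y).erase u, (ov adj Y u i).card

/-- GAI (variant of BisRt GAI): `|ov| / d ≤ (d + s) / d ≤ 2`, U_FFF (4), result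
`(1/5) / 100 = 1 / 500`. -/
def U_GAI : Prop :=
  ∀ (adj : ℕ → ℕ → Bool) (n d s : ℕ), NReg adj n d s → 1 ≤ d → s ≤ d →
    ∀ X Y : Finset ℕ, X ⊆ range n → Y ⊆ range n → ∀ u ∈ hi adj d X Y,
    (∀ i ∈ hi adj d X Y, inc adj n X Y i ≤ inc adj n X Y u) →
    d * d ≤ 100 * ∑ i ∈ (hi adj d X Y).erase u, (ov adj Y u i).card →
    1 / 500 * Real.exp (-((inc adj n X Y u : ℝ) / d / 10)) ≤
      (∑ i ∈ (hi adj d X Y).erase u, (Fu ((inc adj n X Y i : ℝ) / d) -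
        Fu ((inc adj n X Y i : ℝ) / d + ((ov adj Y u i).card : ℝ) / d))) / d

/-- STP (variant of BisRt STP): `q = e^(-c/10) / 500`, `e^(-q) ≤ 1 - q / 2` (T_FFF (5)),
`e^(-7) ≤ 1 / 1000`. -/
def U_STP : Prop :=
  ∀ (adj : ℕ → ℕ → Bool) (n d s g : ℕ), NReg adj n d s → s ≤ d → 125 * g + 10 ≤ d →
    ∀ θ : ℝ, 3 / 5 ≤ θ →
    ∀ X Y : Finset ℕ, X ⊆ range n → Y ⊆ range n → ∀ u ∈ hi adj d X Y,
    (∀ i ∈ hi adj d X Y, inc adj n X Y i ≤ inc adj n X Y u) →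
    (∀ j ∈ hi (tr adj) d Y X, inc (tr adj) n Y X j ≤ inc adj n X Y u) →
    Wu adj n d θ (X.erase u) Y + Wu adj n d θ (X.erase u) (Y \ nb adj Y u) ≤
      gr g * Wu adj n d θ X Y

/-! ### States -/

/-- WKD (variant of BisRt WKD). -/
def U_WKD : Prop :=
  ∀ (R : List (List Bool)) (n d σ g : ℕ), NReg (aj R) n d σ → σ ≤ d → 125 * g + 10 ≤ d →
    ∀ θ : ℝ, 3 / 5 ≤ θ → ∀ (s : SI) (c : Bool × ℕ × ℕ), GoodS n s →
    Chosen (aj R) n d s.1.toFinset s.2.toFinset c →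
    ((kids R c s).map (WU R n d θ)).sum ≤ gr g * WU R n d θ s

/-- WRT (variant of BisRt WRT; the exponent of the initial weight is `75 n / d`). -/
def U_WRT : Prop :=
  ∀ (R : List (List Bool)) (n d : ℕ), 1 ≤ d → ∀ s : SI,
    0 < WU R n d (3 / 5) s ∧
    WU R n d (69 / 100) s = Real.exp (-(9 / 100 * ((Ed (aj R) n s.1.toFinset s.2.toFinset : ℝ) / d)))
      * WU R n d (3 / 5) s ∧
    (∀ θ : ℝ, Real.exp (-(θ * ((Ed (aj R) n s.1.toFinset s.2.toFinset : ℝ) / d))) ≤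
      WU R n d θ s) ∧
    WU R n d (3 / 5) (root n) ≤ Real.exp (80 * ((n : ℝ) / d))

/-- LFB (variant of BisRt LFB): `d x + Ed ≤ d n + σ n + e ≤ d (n + c) + e` by U_DBL. -/
def U_LFB : Prop :=
  ∀ (R : List (List Bool)) (n d σ c : ℕ), NReg (aj R) n d σ → σ * n ≤ d * c → 5 ≤ d →
    ∀ s : SI, GoodS n s → Low R d s → (cs R s : ℝ) ≤
      2 ^ (n + c) * Real.exp (-(69 / 100 * ((Ed (aj R) n s.1.toFinset s.2.toFinset : ℝ) / d)))

/-- LFE (variant of BisRt LFE): `tLER` of BisRg with `D = d`, `c`, `M = n`. -/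
def U_LFE : Prop :=
  ∀ (R : List (List Bool)) (n d σ c : ℕ), NReg (aj R) n d σ → σ * n ≤ d * c → 1 ≤ d →
    ∀ s : SI, GoodS n s → Low R d s →
    ∀ k : ℕ, 2 ^ k * (cs R s - apx (6 * k) (rws R s) s.2) ≤ 2 ^ (n + c)

/-- CBD (variant of BisRt CBD). -/
def U_CBD : Prop :=
  ∀ (R : List (List Bool)) (n d σ c g : ℕ), NReg (aj R) n d σ → σ ≤ d → σ * n ≤ d * c →
    125 * g + 10 ≤ d → ∀ s : SI, GoodS n s → (cs R s : ℝ) ≤
      2 ^ (n + c) * gr g ^ (s.1.length + s.2.length) * WU R n d (69 / 100) s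

/-- STW (variant of BisRt STW). -/
def U_STW : Prop :=
  ∀ (R : List (List Bool)) (n d σ c g K : ℕ), NReg (aj R) n d σ → σ ≤ d → σ * n ≤ d * c →
    125 * g + 10 ≤ d → ∀ s : SI, GoodS n s →
    ((stepT d K R (List.range n) s).map (WU R n d (3 / 5))).sum ≤ gr g * WU R n d (3 / 5) s ∧
    (cs R s : ℝ) +
        Mu n c d g K * ((stepT d K R (List.range n) s).map (WU R n d (3 / 5))).sum ≤
      ((stepT d K R (List.range n) s).map fun s' => (cs R s' : ℝ)).sum +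
        Mu n c d g K * (gr g * WU R n d (3 / 5) s)

/-- RND (variant of BisRt RND). -/
def U_RND : Prop :=
  ∀ (R : List (List Bool)) (n d σ c g K : ℕ) (P : Un), NReg (aj R) n d σ → σ ≤ d →
    σ * n ≤ d * c → 125 * g + 10 ≤ d →
    gr g ^ (2 * n) * Real.exp (80 * ((n : ℝ) / d)) * Real.exp (3 / 5 * ((K : ℝ) / d)) ≤
      P.length →
    (∀ s ∈ rounds d K P R (List.range n) [root n], GoodS n s ∧ Low R d s) ∧
    (rounds d K P R (List.range n) [root n]).length ≤ P.length ∧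
    (cs R (root n) : ℝ) ≤
      ((rounds d K P R (List.range n) [root n]).map fun s => (cs R s : ℝ)).sum +
        Mu n c d g K * (gr g ^ (2 * n) * Real.exp (80 * ((n : ℝ) / d)))

/-- NUM. (1), (2): `g = (d - 10) / 125`, `125 (g + 1) ≥ d - 9 ≥ (126/135) d`,
`e^(-g) ≤ 1 / (1 + g) ≤ 134 / d`, `gr g ^ (2 n) ≤ e^(2 n e^(-g))`. Let `m = size w + size t + 1`;
`k < size w` (`Nat.lt_size`), `n / d ≤ k`, `K / d = 7000 m`. (3): the exponent is at most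
`348 k + 4200 m ≤ 4548 m`, `e^(4548 m) ≤ 2 ^ (6822 m)` (`e ^ 2 ≤ 8`), `2 ^ m ≤ 2 (2 w) (2 t) ≤ B ^ 2`,
so at most `B ^ 13644`, `B = 2 w + 2 t + 3`. (4): `2 ^ k ≤ e^k`, the exponent is at most
`(1 + 268 + 268 + 80) k - 630 m ≤ - size t - 1` and `2 t ≤ 2 ^ (size t + 1)`. -/
def U_NUM : Prop :=
  (∀ d : ℕ, 135 ≤ d → 125 * ((d - 10) / 125) + 10 ≤ d) ∧
  (∀ n d : ℕ, 135 ≤ d → gr ((d - 10) / 125) ^ (2 * n) ≤ Real.exp (268 * ((n : ℝ) / d))) ∧
  ∀ n d k w t : ℕ, 1 ≤ d → n ≤ d * k → 2 ^ k ≤ w → 1 ≤ t →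
    Real.exp (268 * ((n : ℝ) / d)) * Real.exp (80 * ((n : ℝ) / d)) *
      Real.exp (3 / 5 * (((d * (7000 * (Nat.size w + Nat.size t + 1)) : ℕ) : ℝ) / d)) ≤
      (((2 * w + 2 * t + 3) ^ 14000 : ℕ) : ℝ) ∧
    2 * (t : ℝ) * (2 ^ k * Real.exp (268 * ((n : ℝ) / d)) *
      Real.exp (-(9 / 100 * (((d * (7000 * (Nat.size w + Nat.size t + 1)) : ℕ) : ℝ) / d))) *
      (Real.exp (268 * ((n : ℝ) / d)) * Real.exp (80 * ((n : ℝ) / d)))) ≤ 1

/-- ERR (variant of BisRt ERR) with `c = k`, `g = (d - 10) / 125`. The total error of the leaves: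
the budget has length `6 k'`, `k' = size (2 t) + 3 size (cap)`, `2 ^ k' ≥ 2 t * cap * cap`,
`cap ≥ w ≥ 2 ^ k`, at most `cap` leaves with error at most `2 ^ (n + k) / 2 ^ k'` each. Lower bound:
T_RLB of BisRt. -/
def U_ERR : Prop :=
  (∀ (D : ℕ) (W T : Un) (R : List (List Bool)), algVD D W T R ≤ cs R (root R.length)) ∧
  ∀ (d σ k : ℕ) (W T : Un) (R : List (List Bool)), 1 ≤ R.length → NReg (aj R) R.length d σ →
    σ ≤ d → 135 ≤ d → (σ + 1) * R.length ≤ d * k → 2 ^ k ≤ W.length →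
    T.length * (cs R (root R.length) - algVD d W T R) ≤ 2 ^ R.length

/-- ALT (variant of BisRt ALT). -/
def U_ALT : Prop :=
  (∀ (W T : Un) (R : List (List Bool)), algV W T R ≤ cs R (root R.length)) ∧
  ∀ (d σ k : ℕ) (W T : Un) (R : List (List Bool)), NReg (aj R) R.length d σ →
    σ ≤ d → 135 ≤ d → (σ + 1) * R.length ≤ d * k → 2 ^ k ≤ W.length →
    T.length * (cs R (root R.length) - algV W T R) ≤ 2 ^ R.length

/-- GRA (variant of BisRt GRA). -/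
def U_GRA : Prop :=
  ∀ G : Bip, G.a = G.b → ∀ d s : ℕ, NearRegular G d s → NReg (aj (rowsOf G)) G.a d s

/-- BRU. `tALW` of BisRg with `D = 1`, `c = n`: `Cond 1 n` is trivial (both sublists have at most
`n` elements) and `Sub n r ≤ 2 ^ n`. -/
def U_BRU : Prop :=
  ∀ (W T B : Un) (R : List (List Bool)), B.length = R.length → 2 ^ R.length ≤ W.length →
    T.length * (cnt R (List.range B.length) - algW W T B R) ≤ cnt R (List.range B.length)

/-- PTA (variant of BisRt PTA). -/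
def U_PTA : Prop :=
  Fact Core → PolyF (fun x : ℕ × Un × Un × List (List Bool) =>
    algVD x.1 x.2.1 x.2.2.1 x.2.2.2)

/-- PTX (variant of BisRt PTX; `tWPT` of BisRg for the second algorithm). -/
def U_PTX : Prop :=
  Fact Core → PolyF (fun x : In₂ => algY x.1 x.2.1 x.2.2.1 x.2.2.2)

/-- AYL. The whole algorithm on graphs. Lower bound: U_ALT (1) and T_GRA (`a = b`), `tALW` (1).
Error: if `d < 135` then `n ≤ 134 k`, if `d < s` then `n ≤ k`; in both cases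
`2 ^ n ≤ w ^ 135 = (pw 135 W).length` and U_BRU; otherwise U_ALT, U_GRA, T_GRA; `maxL` is the
maximum. (For `n = 0` everything is covered by U_BRU: `k ≥ 0`, `1 ≤ w ^ 135`.) -/
def U_AYL : Prop :=
  ∀ (G : Bip) (W T : Un),
    algY W T (List.replicate G.b true) (rowsOf G) ≤ G.count ∧
    ∀ d s k : ℕ, 1 ≤ d → NearRegular G d s → (s + 1) * G.a ≤ d * k → 2 ^ k ≤ W.length →
      T.length * (G.count - algY W T (List.replicate G.b true) (rowsOf G)) ≤ G.count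

/-- ST8. The machine for `algY`, see `P_ST5.lean` of BisRt and `P_ST1.lean` of BisRg. -/
def U_ST8 : Prop := Statement8

/-- ST9. `algY` with `W = pw q (B ++ un R ++ [true])` and `k = q * log n`, see `P_ST6.lean` of BisRt
and `P_ST2.lean` of BisRg. If `d = 0` then `n = 0` and the hypothesis also holds for `d = 1`. -/
def U_ST9 : Prop := Statement9

end Pool.Agent.BisRu
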